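import Pool.Agent.Helper2.NR.Rough

/-!
# The sieve weight is bounded at the integers without small prime factors
-/

set_option autoImplicit false

open Finset Filter

namespace Pool.Agent.Helper2.NR

open Pool.Agent.H378R2 Pool.Agent.H95R2.BG

/-- all prime factors of `m` exceed `exp (ρ Lt)` -/
def Rgh (ρ τ X : ℝ) (m : ℕ) : Prop := ∀ p : ℕ, p.Prime → p ∣ m → Real.exp (ρ * Lt τ X) < p

lemma rgh_of_not_bad {K : ℕ} {ρ τ : ℝ} {D : ℕ} {X : ℝ} {h : Fin K → ℕ} {a n : ℕ} (hn : n ≡ a [MOD WD D])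
    (ha : ∀ i, (a + h i).Coprime (WD D)) (hb : ¬ Bad ρ τ D X h n) (j : Fin K) : Rgh ρ τ X (n + h j) := by
  intro p hp hpd
  by_contra hle
  push Not at hle
  rcases Nat.lt_or_ge D p with hD | hD
  · apply hb
    refine ⟨j, p, mem_PR.2 ⟨hp, hD, hle⟩, ?_⟩
    have e : ((n + h j : ℕ) : ℤ) = (n : ℤ) + h j := by push_cast; ring
    rw [← e]
    exact Int.natCast_dvd_natCast.2 hpd
  · have hpW : p ∣ WD D := (prime_dvd_WD hp).2 (mem_PD' hp hD)
    have h2 : n + h j ≡ a + h j [MOD p] := (Nat.ModEq.add_right (h j) hn).of_dvd hpW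
    have h3 : p ∣ a + h j := (Nat.modEq_zero_iff_dvd.1 (h2.symm.trans (Nat.modEq_zero_iff_dvd.2 hpd)))
    have h4 := Nat.dvd_gcd h3 hpW
    rw [(ha j)] at h4
    exact hp.one_lt.ne' (Nat.dvd_one.1 h4)

lemma log4_le {τ X : ℝ} (hτ' : τ < 1 / 8) (hX : 4 ≤ X) : Real.log (4 * X) ≤ 16 * Lt τ X := by
  have hX0 : 0 < X := by linarith
  have h1 : Real.log (4 * X) ≤ 2 * Real.log X := by
    rw [Real.log_mul (by norm_num) hX0.ne']
    have := Real.log_le_log (by norm_num) hX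
    linarith
  have h2 : 0 ≤ Real.log X := Real.log_nonneg (by linarith)
  unfold Lt
  nlinarith

lemma rgh_omega {ρ τ X : ℝ} (hρ : 0 < ρ) (hτ' : τ < 1 / 8) (hX : 4 ≤ X) (hL : 1 ≤ Lt τ X) {m : ℕ} (hm : 1 ≤ m)
    (hmX : (m : ℝ) ≤ 4 * X) (h : Rgh ρ τ X m) : m.primeFactors.card ≤ ⌈16 / ρ⌉₊ := by
  have hL0 : 0 < Lt τ X := by linarith
  have h1 : Real.exp (ρ * Lt τ X) ^ m.primeFactors.card ≤ ((∏ p ∈ m.primeFactors, p : ℕ) : ℝ) := by
    push_cast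
    rw [← prod_const]
    apply Finset.prod_le_prod
    · intro p _; exact (Real.exp_pos _).le
    · intro p hp
      exact (h p (Nat.prime_of_mem_primeFactors hp) (Nat.dvd_of_mem_primeFactors hp)).le
  have h2 : ((∏ p ∈ m.primeFactors, p : ℕ) : ℝ) ≤ 4 * X := by
    refine le_trans ?_ hmX
    exact_mod_cast Nat.le_of_dvd hm (Nat.prod_primeFactors_dvd m)
  have h3 := h1.trans h2
  rw [← Real.exp_nat_mul] at h3
  have h4 := Real.log_le_log (Real.exp_pos _) h3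
  rw [Real.log_exp] at h4
  have h5 := h4.trans (log4_le hτ' hX)
  have h6 : (m.primeFactors.card : ℝ) ≤ 16 / ρ := by
    rw [le_div_iff₀ hρ]
    have : (m.primeFactors.card * ρ) * Lt τ X ≤ 16 * Lt τ X := by linarith
    exact le_of_mul_le_mul_right this hL0
  exact_mod_cast h6.trans (Nat.le_ceil _)

lemma card_sqf_div {m : ℕ} (hm : m ≠ 0) (E : Finset ℕ) (R : ℕ) :
    ((adm E R).filter (fun d => d ∣ m)).card ≤ 2 ^ m.primeFactors.card := by
  rw [← card_powerset]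
  apply card_le_card_of_injOn (fun d => d.primeFactors)
  · intro d hd
    rw [mem_coe, mem_filter, mem_adm] at hd
    rw [mem_coe, mem_powerset]
    exact Nat.primeFactors_mono hd.2 hm
  · intro d hd e he hde
    rw [mem_coe, mem_filter, mem_adm] at hd he
    beta_reduce at hde
    rw [← Nat.prod_primeFactors_of_squarefree hd.1.2.1, ← Nat.prod_primeFactors_of_squarefree he.1.2.1, hde]

lemma vv_rgh_le {ρ τ X : ℝ} (hρ : 0 < ρ) (hτ' : τ < 1 / 8) (hX : 4 ≤ X) (hL : 1 ≤ Lt τ X) {m : ℕ} (hm : 1 ≤ m)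
    (hmX : (m : ℝ) ≤ 4 * X) (h : Rgh ρ τ X m) (D : ℕ) (F : ℝ → ℝ) (hF : ∀ x, |F x| ≤ 1) :
    |vv τ D X F (m : ℤ)| ≤ 2 ^ ⌈16 / ρ⌉₊ := by
  classical
  unfold vv VVm
  refine (abs_sum_le_sum_abs _ _).trans ?_
  have h1 : ∀ d ∈ adm (PD D) (Rt τ X), |if (d : ℤ) ∣ (m : ℤ) then
      ((ArithmeticFunction.moebius d : ℤ) : ℝ) * F (Real.log d / Lt τ X) else 0| ≤
      if d ∣ m then 1 else 0 := by
    intro d _
    by_cases hd : d ∣ m
    · rw [if_pos (Int.natCast_dvd_natCast.2 hd), if_pos hd, abs_mul]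
      have hm : |((ArithmeticFunction.moebius d : ℤ) : ℝ)| ≤ 1 := by
        rw [← Int.cast_abs]
        exact_mod_cast ArithmeticFunction.abs_moebius_le_one
      calc |((ArithmeticFunction.moebius d : ℤ) : ℝ)| * |F (Real.log d / Lt τ X)| ≤ 1 * 1 := by
            apply mul_le_mul hm (hF _) (abs_nonneg _) zero_le_one
        _ = 1 := one_mul 1
    · rw [if_neg (fun h => hd (Int.natCast_dvd_natCast.1 h)), if_neg hd, abs_zero]
  refine (sum_le_sum h1).trans ?_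
  rw [← sum_filter, sum_const, nsmul_eq_mul, mul_one]
  calc (((adm (PD D) (Rt τ X)).filter (fun d => d ∣ m)).card : ℝ) ≤ 2 ^ m.primeFactors.card := by
        exact_mod_cast card_sqf_div (by omega) (PD D) (Rt τ X)
    _ ≤ 2 ^ ⌈16 / ρ⌉₊ := pow_le_pow_right₀ (by norm_num) (rgh_omega hρ hτ' hX hL hm hmX h)

/-- the bound for the sieve weight -/
lemma ww_rgh_le {K0 N1 M : ℕ} {f : ℕ → ℝ → ℝ} {β : ℝ} (hf : Cells N1 M f β)
    (F : (Fin (K0 + 1) → ℕ) → ℝ) {ρ τ X : ℝ} (hρ : 0 < ρ) (hτ' : τ < 1 / 8) (hX : 4 ≤ X) (hL : 1 ≤ Lt τ X)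
    (D : ℕ) (h : Fin (K0 + 1) → ℕ) (n : ℕ) (hn : 1 ≤ n) (hnX : ∀ j, ((n + h j : ℕ) : ℝ) ≤ 4 * X)
    (hr : ∀ j, Rgh ρ τ X (n + h j)) :
    ww τ D X f M F h n ^ 2 ≤ ((∑ c ∈ Box (K0 + 1) M, |F c|) * (2 ^ ⌈16 / ρ⌉₊) ^ (K0 + 1)) ^ 2 := by
  classical
  have hprod : ∀ c ∈ Box (K0 + 1) M, |prodv τ D X f h c n| ≤ (2 ^ ⌈16 / ρ⌉₊) ^ (K0 + 1) := by
    intro c hc
    unfold prodv
    rw [abs_prod]
    calc ∏ j, |vv τ D X (f (c j)) ((n : ℤ) + h j)| ≤ ∏ _j : Fin (K0 + 1), ((2 : ℝ) ^ ⌈16 / ρ⌉₊) := by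
          refine prod_le_prod (fun _ _ => abs_nonneg _) fun j _ => ?_
          have e : (n : ℤ) + h j = ((n + h j : ℕ) : ℤ) := by push_cast; ring
          rw [e]
          exact vv_rgh_le hρ hτ' hX hL (by omega) (hnX j) (hr j) D _ (hf.good (c j) (Lim.mem_Box.1 hc j)).bdd
      _ = _ := by rw [prod_const, card_univ, Fintype.card_fin]
  have hww : |ww τ D X f M F h n| ≤ (∑ c ∈ Box (K0 + 1) M, |F c|) * (2 ^ ⌈16 / ρ⌉₊) ^ (K0 + 1) := by
    unfold ww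
    calc |∑ c ∈ Box (K0 + 1) M, F c * prodv τ D X f h c n|
        ≤ ∑ c ∈ Box (K0 + 1) M, |F c * prodv τ D X f h c n| := abs_sum_le_sum_abs _ _
      _ ≤ ∑ c ∈ Box (K0 + 1) M, |F c| * (2 ^ ⌈16 / ρ⌉₊) ^ (K0 + 1) := by
          refine sum_le_sum fun c hc => ?_
          rw [abs_mul]
          exact mul_le_mul_of_nonneg_left (hprod c hc) (abs_nonneg _)
      _ = _ := by rw [sum_mul]
  calc ww τ D X f M F h n ^ 2 = |ww τ D X f M F h n| ^ 2 := (sq_abs _).symm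
    _ ≤ _ := pow_le_pow_left₀ (abs_nonneg _) hww 2

/-- rough numbers in terms of powers of `n` -/
lemma rgh_pow {ρ τ : ℝ} (hρ : 0 < ρ) (hρ1 : ρ ≤ 1) (hτ' : τ < 1 / 8) :
    ∀ᶠ X : ℝ in atTop, ∀ n m : ℕ, (n : ℝ) ≤ 3 * X → Rgh ρ τ X m →
      ∀ r : ℕ, 16 / ρ ≤ r → ∀ p : ℕ, p.Prime → p ∣ m → (n : ℝ) ^ (1 / (r : ℝ)) < p := by
  filter_upwards [eventually_ge_atTop 4] with X hX n m hnX hr r hrr p hp hpm
  refine lt_of_le_of_lt ?_ (hr p hp hpm)
  have hr16 : (16 : ℝ) ≤ r := by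
    refine le_trans ?_ hrr
    rw [le_div_iff₀ hρ]
    linarith
  have hr0 : (0 : ℝ) < r := by linarith
  have hlog := log4_le hτ' hX
  have hlog0 : 0 ≤ Real.log (4 * X) := Real.log_nonneg (by linarith)
  have hn4 : (n : ℝ) ≤ 4 * X := by linarith
  rcases Nat.eq_zero_or_pos n with rfl | hn
  · rw [Nat.cast_zero, Real.zero_rpow (by positivity)]
    exact (Real.exp_pos _).le
  · have hn0 : (0 : ℝ) < n := by exact_mod_cast hn
    rw [Real.rpow_def_of_pos hn0]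
    apply Real.exp_le_exp.2
    have h1 : Real.log n ≤ Real.log (4 * X) := Real.log_le_log hn0 hn4
    have h2 : 1 / (r : ℝ) ≤ ρ / 16 := by
      rw [div_le_div_iff₀ hr0 (by norm_num)]
      rw [div_le_iff₀ hρ] at hrr
      linarith
    calc Real.log n * (1 / (r : ℝ)) ≤ Real.log (4 * X) * (1 / (r : ℝ)) :=
          mul_le_mul_of_nonneg_right h1 (by positivity)
      _ ≤ Real.log (4 * X) * (ρ / 16) := mul_le_mul_of_nonneg_left h2 hlog0
      _ ≤ (16 * Lt τ X) * (ρ / 16) := mul_le_mul_of_nonneg_right hlog (by positivity)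
      _ = ρ * Lt τ X := by ring

end Pool.Agent.Helper2.NR
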