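import Pool.Agent.Helper2.NR.Dhl
import Pool.Graph.R_seed8.Y826.ZC.Con45
import Pool.Graph.R_pool_sql_team_seeded_2aa45f1a.Q25.Arb3

/-!
# Consecutive primes in admissible 45-tuples of rough numbers: count, narrow progressions, short intervals
-/

set_option autoImplicit false

open Finset Filter

namespace Pool.Agent.Helper2.NR

open Pool.Agent.H95R2.BG (Admissible)
open Pool.Agent.Q25.Arb

/-- `n + u` and `n + v` are consecutive primes, and the `n + g`, `g ∈ H`, have no prime factor `≤ n ^ (1 / r)` -/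
def Pat (H : Finset ℕ) (r u v n : ℕ) : Prop :=
  (n + u).Prime ∧ (n + v).Prime ∧ (∀ m, u < m → m < v → ¬ (n + m).Prime) ∧ RoughPattern H r n

lemma adm_conv {h : Fin 45 → ℕ} (hadm : Admissible h) (p : ℕ) (hp : p.Prime) :
    ∃ r : ℕ, r < p ∧ ∀ g ∈ univ.image h, g % p ≠ r := by
  obtain ⟨a, ha⟩ := hadm.2 p hp
  refine ⟨(p - a % p) % p, Nat.mod_lt _ hp.pos, fun g hg he => ?_⟩
  obtain ⟨i, _, rfl⟩ := mem_image.1 hg
  apply ha i
  have h1 : a % p < p := Nat.mod_lt _ hp.pos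
  have h2 : h i ≡ p - a % p [MOD p] := by
    unfold Nat.ModEq
    rw [he]
  have h3 : a + h i ≡ a % p + (p - a % p) [MOD p] := (Nat.mod_modEq a p).symm.add h2
  rw [Nat.add_sub_cancel' h1.le] at h3
  exact (Nat.modEq_zero_iff_dvd).1 (h3.trans ((Nat.modEq_zero_iff_dvd).2 dvd_rfl))

lemma pick {h : Fin 45 → ℕ} (hinj : Function.Injective h) {Q b n : ℕ}
    (hcl : ∀ n, n ≡ b [MOD Q] → Q < n → ∀ t, (∃ j, t ≤ h j) → (∀ i, t ≠ h i) → ¬ (n + t).Prime)
    (hn : n ≡ b [MOD Q]) (hQn : Q < n) (hij : ∃ i j, i ≠ j ∧ (n + h i).Prime ∧ (n + h j).Prime) :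
    ∃ i j, h i < h j ∧ (n + h i).Prime ∧ (n + h j).Prime ∧ ∀ m, h i < m → m < h j → ¬ (n + m).Prime := by
  classical
  have key : ∀ i j, h i < h j → (n + h i).Prime → (n + h j).Prime →
      ∃ i j, h i < h j ∧ (n + h i).Prime ∧ (n + h j).Prime ∧ ∀ m, h i < m → m < h j → ¬ (n + m).Prime := by
    intro i j hlt hi hj
    obtain ⟨k, hk, hmin⟩ := Finset.exists_min_image
      (univ.filter (fun k => h i < h k ∧ (n + h k).Prime)) h ⟨j, mem_filter.2 ⟨mem_univ _, hlt, hj⟩⟩
    rw [mem_filter] at hk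
    refine ⟨i, k, hk.2.1, hi, hk.2.2, fun m h1 h2 hm => ?_⟩
    by_cases hex : ∃ l, m = h l
    · obtain ⟨l, rfl⟩ := hex
      have := hmin l (mem_filter.2 ⟨mem_univ _, h1, hm⟩)
      omega
    · push Not at hex
      exact hcl n hn hQn m ⟨k, h2.le⟩ hex hm
  obtain ⟨i, j, hne, hi, hj⟩ := hij
  rcases lt_or_gt_of_ne (fun e => hne (hinj e) : h i ≠ h j) with h1 | h1
  · exact key i j h1 hi hj
  · exact key j i h1 hj hi

lemma card_HH {h : Fin 45 → ℕ} (hinj : Function.Injective h) : (univ.image h).card = 45 := by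
  rw [card_image_of_injective _ hinj, card_univ, Fintype.card_fin]

/-- the union of the patterns -/
def PatU (h : Fin 45 → ℕ) (r : ℕ) : Set ℕ := {n | ∃ i j, h i < h j ∧ Pat (univ.image h) r (h i) (h j) n}

/-- the right order of magnitude -/
theorem count_all (h : Fin 45 → ℕ) (hadm : Admissible h) : ∃ r₀ : ℕ, ∀ r : ℕ, r₀ ≤ r → ∃ c : ℝ, 0 < c ∧
    ∀ᶠ X : ℕ in atTop, c * ((X : ℝ) / Real.log X ^ 45) ≤ (N (PatU h r) X (3 * X) : ℝ) := by
  classical
  obtain ⟨Q, b, hQ, hb, hcl⟩ := Pool.Agent.Y826.ZC.Y4_class h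
  obtain ⟨r₀, hr₀⟩ := dhl45R h hadm Q b hQ hb
  refine ⟨r₀, fun r hr => ?_⟩
  obtain ⟨c, hc, hX⟩ := hr₀ r hr
  refine ⟨c, hc, ?_⟩
  filter_upwards [tendsto_natCast_atTop_atTop.eventually hX, eventually_ge_atTop Q] with X hX1 hXQ
  refine hX1.trans ?_
  unfold N
  apply Nat.cast_le.2
  apply card_le_card
  intro n hn
  unfold goodR at hn
  rw [mem_filter, mem_Ioc] at hn
  have e1 : ⌊(X : ℝ)⌋₊ = X := Nat.floor_natCast X
  have e2 : ⌊3 * (X : ℝ)⌋₊ = 3 * X := by
    have : (3 : ℝ) * X = ((3 * X : ℕ) : ℝ) := by push_cast; ring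
    rw [this, Nat.floor_natCast]
  rw [e1, e2] at hn
  obtain ⟨⟨h1, h2⟩, h3, h4, h5⟩ := hn
  rw [mem_filter, mem_Ioc]
  refine ⟨⟨h1, h2⟩, ?_⟩
  obtain ⟨i, j, g1, g2, g3, g4⟩ := pick hadm.1 hcl h3 (by omega) h4
  refine ⟨i, j, g1, g2, g3, g4, ?_⟩
  intro g hg p hp hpd
  obtain ⟨k, _, rfl⟩ := mem_image.1 hg
  exact h5 k p hp hpd

lemma N_mono {A B : Set ℕ} (hAB : A ⊆ B) (u v : ℕ) : N A u v ≤ N B u v := by
  classical
  unfold N
  apply card_le_card
  intro n hn
  rw [mem_filter] at hn ⊢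
  exact ⟨hn.1, hAB hn.2⟩

/-- one pair of positions -/
theorem count_pair (h : Fin 45 → ℕ) (hadm : Admissible h) : ∃ r₀ : ℕ, ∀ r : ℕ, r₀ ≤ r → ∃ c : ℝ, 0 < c ∧
    ∀ᶠ X : ℕ in atTop, ∃ i j, h i < h j ∧
      c * ((X : ℝ) / Real.log X ^ 45) ≤ (N {n | Pat (univ.image h) r (h i) (h j) n} X (3 * X) : ℝ) := by
  classical
  obtain ⟨r₀, hr₀⟩ := count_all h hadm
  refine ⟨r₀, fun r hr => ?_⟩
  obtain ⟨c, hc, hX⟩ := hr₀ r hr
  refine ⟨c / 2025, by positivity, ?_⟩
  filter_upwards [hX, eventually_ge_atTop 2] with X hX1 hX2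
  by_contra hcon
  push Not at hcon
  have hlog : 0 < Real.log X := Real.log_pos (by exact_mod_cast (by omega : 1 < X))
  have hX0 : (0 : ℝ) < X := by exact_mod_cast (by omega : 0 < X)
  set M := c * ((X : ℝ) / Real.log X ^ 45) with hM
  have hM0 : 0 < M := by positivity
  have h1 : N (PatU h r) X (3 * X) ≤ ∑ q : Fin 45 × Fin 45, (if h q.1 < h q.2 then
      N {n | Pat (univ.image h) r (h q.1) (h q.2) n} X (3 * X) else 0) := by
    have h2 : (Ioc X (3 * X)).filter (fun n => n ∈ PatU h r) ⊆ univ.biUnion (fun q : Fin 45 × Fin 45 =>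
        if h q.1 < h q.2 then (Ioc X (3 * X)).filter
          (fun n => n ∈ {n | Pat (univ.image h) r (h q.1) (h q.2) n}) else ∅) := by
      intro n hn
      rw [mem_filter] at hn
      obtain ⟨hn1, i, j, hij, hp⟩ := hn
      rw [mem_biUnion]
      refine ⟨(i, j), mem_univ _, ?_⟩
      rw [if_pos hij, mem_filter]
      exact ⟨hn1, hp⟩
    unfold N
    refine (card_le_card h2).trans (card_biUnion_le.trans (le_of_eq ?_))
    apply sum_congr rfl
    intro q _
    split_ifs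
    · rfl
    · rfl
  have h2 : (N (PatU h r) X (3 * X) : ℝ) < M := by
    calc (N (PatU h r) X (3 * X) : ℝ) ≤ ((∑ q : Fin 45 × Fin 45, (if h q.1 < h q.2 then
          N {n | Pat (univ.image h) r (h q.1) (h q.2) n} X (3 * X) else 0) : ℕ) : ℝ) := by exact_mod_cast h1
      _ = ∑ q : Fin 45 × Fin 45, (if h q.1 < h q.2 then
          (N {n | Pat (univ.image h) r (h q.1) (h q.2) n} X (3 * X) : ℝ) else 0) := by
          push_cast
          rfl
      _ < ∑ _q : Fin 45 × Fin 45, M / 2025 := by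
          apply sum_lt_sum_of_nonempty (univ_nonempty)
          intro q _
          split_ifs with hq
          · have := hcon q.1 q.2 hq
            calc _ < c / 2025 * ((X : ℝ) / Real.log X ^ 45) := this
              _ = M / 2025 := by rw [hM]; ring
          · positivity
      _ = M := by
          rw [sum_const, card_univ, Fintype.card_prod, Fintype.card_fin, nsmul_eq_mul]
          push_cast
          ring
  linarith

/-- the pieces -/
lemma piece_cover (A : Set ℕ) (X : ℕ) : N A X (3 * X) ≤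
    ∑ i ∈ range 8, N A (X + i * (X / 4 + 1)) (X + i * (X / 4 + 1) + (X / 4 + 1)) := by
  classical
  unfold N
  set Y := X / 4 + 1 with hY
  have h2 : (Ioc X (3 * X)).filter (fun n => n ∈ A) ⊆ (range 8).biUnion (fun i =>
      (Ioc (X + i * Y) (X + i * Y + Y)).filter (fun n => n ∈ A)) := by
    intro n hn
    rw [mem_filter, mem_Ioc] at hn
    obtain ⟨⟨h1, h2⟩, h3⟩ := hn
    rw [mem_biUnion]
    refine ⟨(n - X - 1) / Y, ?_, ?_⟩
    · rw [mem_range]
      apply Nat.div_lt_of_lt_mul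
      omega
    · rw [mem_filter, mem_Ioc]
      refine ⟨⟨?_, ?_⟩, h3⟩
      · have := Nat.div_mul_le_self (n - X - 1) Y
        omega
      · have := Nat.lt_div_mul_add (a := n - X - 1) (b := Y) (by omega)
        omega
  exact (card_le_card h2).trans card_biUnion_le

lemma log_ge_ev (b : ℝ) : ∀ᶠ X : ℕ in atTop, b ≤ Real.log X :=
  (Real.tendsto_log_atTop.comp tendsto_natCast_atTop_atTop).eventually_ge_atTop b

/-- the pieces are long enough -/
lemma piece_size : ∀ᶠ X : ℕ in atTop, ∀ i < 8, ((X + i * (X / 4 + 1) : ℕ) : ℝ) ^ (1 / 2 : ℝ) ≤ ((X / 4 + 1 : ℕ) : ℝ) ∧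
    2 * (X / 4 + 1) ≤ X + i * (X / 4 + 1) ∧ X + i * (X / 4 + 1) + (X / 4 + 1) ≤ 4 * X := by
  filter_upwards [eventually_ge_atTop 100] with X hX i hi
  refine ⟨?_, ?_, ?_⟩
  · rw [← Real.sqrt_eq_rpow]
    apply Real.sqrt_le_iff.2
    refine ⟨Nat.cast_nonneg _, ?_⟩
    have h1 : X + i * (X / 4 + 1) ≤ (X / 4 + 1) ^ 2 := by
      have h2 : X ≤ 4 * (X / 4 + 1) := by omega
      have h3 : i * (X / 4 + 1) ≤ 7 * (X / 4 + 1) := Nat.mul_le_mul_right _ (by omega)
      have h4 : 11 * (X / 4 + 1) ≤ (X / 4 + 1) * (X / 4 + 1) := Nat.mul_le_mul_right _ (by omega)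
      rw [pow_two]
      omega
    exact_mod_cast h1
  · have : 0 ≤ i * (X / 4 + 1) := Nat.zero_le _
    omega
  · have h3 : i * (X / 4 + 1) ≤ 7 * (X / 4 + 1) := Nat.mul_le_mul_right _ (by omega)
    omega

/-- Nearly all elements of a set of rough patterns are on narrow progressions. -/
theorem ap_transfer (H : Finset ℕ) (hne : H.Nonempty)
    (hadm : ∀ p : ℕ, p.Prime → ∃ r : ℕ, r < p ∧ ∀ g ∈ H, g % p ≠ r) (hk : H.card = 45) :
    ∃ r₀ : ℕ, ∀ r : ℕ, r₀ ≤ r → ∀ c : ℝ, 0 < c → ∀ l : ℕ, 2 ≤ l → ∃ B : ℕ, ∀ᶠ X : ℕ in atTop, ∀ A : Set ℕ,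
      (∀ n ∈ A, RoughPattern H r n) → c * ((X : ℝ) / Real.log X ^ 45) ≤ (N A X (3 * X) : ℝ) →
      c / 2 * ((X : ℝ) / Real.log X ^ 45) ≤
        (N {n | n ∈ A ∧ OnProgression A l (Real.log X ^ B) X (4 * X) n} X (4 * X) : ℝ) := by
  classical
  obtain ⟨r₀, hr₀⟩ := rough_part H hne hadm 45 hk (1 / 2) (by norm_num) (by norm_num)
  refine ⟨r₀, fun r hr c hc l hl => ?_⟩
  obtain ⟨B, hB⟩ := (hr₀ r hr).1 l hl (c / 8) (by positivity)
  obtain ⟨X₀, hX₀⟩ := eventually_atTop.1 hB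
  refine ⟨B + 1, ?_⟩
  filter_upwards [piece_size, eventually_ge_atTop X₀, eventually_ge_atTop 100, log_ge_ev (2 ^ B + 1),
    log_ge_ev (Real.log 4)] with X hp hX hX100 hlogX hlog4 A hA hcount
  have h2B : (1 : ℝ) ≤ 2 ^ B := one_le_pow₀ (by norm_num)
  have hlog : 0 < Real.log X := by linarith
  have hX0 : (0 : ℝ) < X := by exact_mod_cast (by omega : 0 < X)
  set Y := X / 4 + 1 with hY
  have hYX : (Y : ℝ) ≤ X / 2 := by
    have : 2 * Y ≤ X := by omega
    have h2 : ((2 * Y : ℕ) : ℝ) ≤ X := by exact_mod_cast this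
    push_cast at h2
    linarith
  -- each piece
  obtain ⟨G, hG⟩ : ∃ G : Set ℕ, G = {n | n ∈ A ∧ OnProgression A l (Real.log X ^ (B + 1)) X (4 * X) n} :=
    ⟨_, rfl⟩
  rw [← hG]
  have hpiece : ∀ i ∈ range 8, (N A (X + i * Y) (X + i * Y + Y) : ℝ) ≤
      (N G (X + i * Y) (X + i * Y + Y) : ℝ) + c / 8 * (Y / Real.log X ^ 45) := by
    intro i hi
    rw [mem_range] at hi
    obtain ⟨g1, g2, g3⟩ := hp i hi
    have hu : X ≤ X + i * Y := by omega
    have hlogu : Real.log X ≤ Real.log ((X + i * Y : ℕ) : ℝ) :=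
      Real.log_le_log hX0 (by exact_mod_cast hu)
    have hlogu2 : Real.log ((X + i * Y : ℕ) : ℝ) ≤ 2 * Real.log X := by
      have h1 : ((X + i * Y : ℕ) : ℝ) ≤ 4 * X := by
        have : X + i * Y ≤ 4 * X := by omega
        exact_mod_cast this
      have h2 := Real.log_le_log (by exact_mod_cast (by omega : 0 < X + i * Y)) h1
      rw [Real.log_mul (by norm_num) hX0.ne'] at h2
      linarith
    have hna := hX₀ (X + i * Y) (by omega) Y g1 (by omega) A hA
    unfold NearlyAll at hna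
    have hsub : (Ioc (X + i * Y) (X + i * Y + Y)).filter (fun n => n ∈ A) ⊆
        (Ioc (X + i * Y) (X + i * Y + Y)).filter (fun n => n ∈ G) ∪
        (Ioc (X + i * Y) (X + i * Y + Y)).filter (fun n => n ∈ A ∧
          ¬ OnProgression A l (Real.log ((X + i * Y : ℕ) : ℝ) ^ B) (X + i * Y) (X + i * Y + Y) n) := by
      intro n hn
      rw [mem_filter] at hn
      rw [mem_union, mem_filter, mem_filter]
      by_cases hon : OnProgression A l (Real.log ((X + i * Y : ℕ) : ℝ) ^ B) (X + i * Y) (X + i * Y + Y) n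
      · left
        rw [hG]
        refine ⟨hn.1, hn.2, ?_⟩
        obtain ⟨m, d, k1, k2, k3, k4⟩ := hon
        refine ⟨m, d, k1, k2.trans ?_, fun j hj => ?_, k4⟩
        · calc Real.log ((X + i * Y : ℕ) : ℝ) ^ B ≤ (2 * Real.log X) ^ B :=
                pow_le_pow_left₀ (by linarith) hlogu2 B
            _ = 2 ^ B * Real.log X ^ B := mul_pow _ _ _
            _ ≤ Real.log X * Real.log X ^ B := mul_le_mul_of_nonneg_right (by linarith) (by positivity)
            _ = Real.log X ^ (B + 1) := by rw [pow_succ]; ring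
        · obtain ⟨q1, q2, q3⟩ := k3 j hj
          exact ⟨q1, by omega, by omega⟩
      · right
        exact ⟨hn.1, hn.2, hon⟩
    have hcard := (card_le_card hsub).trans (card_union_le _ _)
    have hset : {n : ℕ | (X + i * Y) < n ∧ n ≤ (X + i * Y + Y) ∧ n ∈ A ∧
        ¬ OnProgression A l (Real.log ((X + i * Y : ℕ) : ℝ) ^ B) (X + i * Y) (X + i * Y + Y) n}.ncard =
        ((Ioc (X + i * Y) (X + i * Y + Y)).filter (fun n => n ∈ A ∧
          ¬ OnProgression A l (Real.log ((X + i * Y : ℕ) : ℝ) ^ B) (X + i * Y) (X + i * Y + Y) n)).card := by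
      rw [← Set.ncard_coe_finset]
      congr 1
      ext n
      rw [mem_coe, mem_filter, mem_Ioc]
      simp only [Set.mem_ofPred_eq]
      tauto
    rw [hset] at hna
    have hcard' : (N A (X + i * Y) (X + i * Y + Y) : ℝ) ≤ (N G (X + i * Y) (X + i * Y + Y) : ℝ) +
        (((Ioc (X + i * Y) (X + i * Y + Y)).filter (fun n => n ∈ A ∧
          ¬ OnProgression A l (Real.log ((X + i * Y : ℕ) : ℝ) ^ B) (X + i * Y) (X + i * Y + Y) n)).card : ℝ) := by
      unfold N
      exact_mod_cast hcard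
    refine hcard'.trans (add_le_add le_rfl (hna.trans ?_))
    apply mul_le_mul_of_nonneg_left _ (by positivity)
    apply div_le_div_of_nonneg_left (Nat.cast_nonneg _) (by positivity)
    exact pow_le_pow_left₀ hlog.le hlogu 45
  have hsumN : ∑ i ∈ range 8, N G (X + i * Y) (X + i * Y + Y) ≤ N G X (4 * X) := by
    unfold N
    rw [← card_biUnion]
    · apply card_le_card
      intro n hn
      rw [mem_biUnion] at hn
      obtain ⟨i, hi, hn⟩ := hn
      rw [mem_range] at hi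
      rw [mem_filter, mem_Ioc] at hn ⊢
      obtain ⟨g1, g2, g3⟩ := hp i hi
      exact ⟨⟨by omega, by omega⟩, hn.2⟩
    · intro i _ j _ hij
      rw [Function.onFun, disjoint_left]
      intro n h1 h2
      rw [mem_filter, mem_Ioc] at h1 h2
      have hY0 : 0 < Y := by omega
      rcases lt_or_gt_of_ne hij with h | h
      · have : (i + 1) * Y ≤ j * Y := Nat.mul_le_mul_right _ h
        rw [add_mul, one_mul] at this
        omega
      · have : (j + 1) * Y ≤ i * Y := Nat.mul_le_mul_right _ h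
        rw [add_mul, one_mul] at this
        omega
  have hcov := piece_cover A X
  have h1 : (N A X (3 * X) : ℝ) ≤ (N G X (4 * X) : ℝ) + 8 * (c / 8 * (Y / Real.log X ^ 45)) := by
    calc (N A X (3 * X) : ℝ) ≤ ((∑ i ∈ range 8, N A (X + i * Y) (X + i * Y + Y) : ℕ) : ℝ) := by
          exact_mod_cast hcov
      _ = ∑ i ∈ range 8, (N A (X + i * Y) (X + i * Y + Y) : ℝ) := by push_cast; rfl
      _ ≤ ∑ i ∈ range 8, ((N G (X + i * Y) (X + i * Y + Y) : ℝ) + c / 8 * (Y / Real.log X ^ 45)) :=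
          sum_le_sum hpiece
      _ = ((∑ i ∈ range 8, N G (X + i * Y) (X + i * Y + Y) : ℕ) : ℝ) + 8 * (c / 8 * (Y / Real.log X ^ 45)) := by
          rw [sum_add_distrib, sum_const, card_range, nsmul_eq_mul]
          push_cast
          rfl
      _ ≤ _ := by
          have : ((∑ i ∈ range 8, N G (X + i * Y) (X + i * Y + Y) : ℕ) : ℝ) ≤ (N G X (4 * X) : ℝ) := by
            exact_mod_cast hsumN
          linarith
  have h2 : 8 * (c / 8 * ((Y : ℝ) / Real.log X ^ 45)) ≤ c / 2 * ((X : ℝ) / Real.log X ^ 45) := by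
    calc 8 * (c / 8 * ((Y : ℝ) / Real.log X ^ 45)) = c * (Y / Real.log X ^ 45) := by ring
      _ ≤ c * ((X / 2) / Real.log X ^ 45) := by gcongr
      _ = _ := by ring
  linarith

/-- A positive proportion of the intervals of length `C (log X) ^ 45` contain an element of the set. -/
theorem iv_transfer (H : Finset ℕ) (hne : H.Nonempty)
    (hadm : ∀ p : ℕ, p.Prime → ∃ r : ℕ, r < p ∧ ∀ g ∈ H, g % p ≠ r) (hk : H.card = 45) :
    ∃ r₀ : ℕ, ∀ r : ℕ, r₀ ≤ r → ∀ c : ℝ, 0 < c → ∃ C κ : ℝ, 0 < C ∧ 0 < κ ∧ ∀ᶠ X : ℕ in atTop, ∀ A : Set ℕ,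
      (∀ n ∈ A, RoughPattern H r n) → c * ((X : ℝ) / Real.log X ^ 45) ≤ (N A X (3 * X) : ℝ) →
      κ * X ≤ (N {x | ∃ n ∈ A, x < n ∧ (n : ℝ) ≤ x + C * Real.log X ^ 45} (X / 2) (4 * X) : ℝ) := by
  classical
  obtain ⟨r₀, hr₀⟩ := rough_part H hne hadm 45 hk (1 / 2) (by norm_num) (by norm_num)
  refine ⟨r₀, fun r hr c hc => ?_⟩
  obtain ⟨c₁, hc₁, hreg⟩ := (hr₀ r hr).2.1 (c / 8) (by positivity)
  obtain ⟨B, hB⟩ := hreg 1 one_pos
  obtain ⟨X₀, hX₀⟩ := eventually_atTop.1 hB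
  refine ⟨2 ^ 45 / c₁ + 1, c / (2 * c₁) / (2 * (2 ^ 45 / c₁ + 1) / c₁), by positivity, by positivity, ?_⟩
  set C : ℝ := 2 ^ 45 / c₁ + 1 with hC
  have hC0 : 0 < C := by positivity
  set C' : ℝ := 2 * C / c₁ with hC'
  have hC'0 : 0 < C' := by positivity
  -- growth
  have hgr : ∀ᶠ X : ℕ in atTop, C * Real.log X ^ 45 + 1 ≤ (X : ℝ) / 4 := by
    have h1 := (isLittleO_log_rpow_rpow_atTop (45 : ℝ) (by norm_num : (0 : ℝ) < 1)).bound
      (by positivity : (0 : ℝ) < 1 / (8 * C))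
    filter_upwards [tendsto_natCast_atTop_atTop.eventually h1, eventually_ge_atTop 8] with X h2 hX
    have hX8 : (8 : ℝ) ≤ X := by exact_mod_cast hX
    have hl : 0 ≤ Real.log X := Real.log_nonneg (by linarith)
    have e45 : (45 : ℝ) = ((45 : ℕ) : ℝ) := by norm_num
    rw [e45, Real.rpow_natCast, Real.rpow_one, Real.norm_of_nonneg (by positivity),
      Real.norm_of_nonneg (by positivity)] at h2
    have h3 : C * Real.log X ^ 45 ≤ X / 8 := by
      calc C * Real.log X ^ 45 ≤ C * (1 / (8 * C) * X) := mul_le_mul_of_nonneg_left h2 hC0.le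
        _ = X / 8 := by field_simp
    linarith
  filter_upwards [piece_size, eventually_ge_atTop X₀, eventually_ge_atTop 100, log_ge_ev 2,
    log_ge_ev (Real.log 4), hgr] with X hp hX hX100 hlogX hlog4 hgrX A hA hcount
  have hlog : 0 < Real.log X := by linarith
  have hX0 : (0 : ℝ) < X := by exact_mod_cast (by omega : 0 < X)
  set Y := X / 4 + 1 with hY
  have hYX : (Y : ℝ) ≤ X / 2 := by
    have : 2 * Y ≤ X := by omega
    have h2 : ((2 * Y : ℕ) : ℝ) ≤ X := by exact_mod_cast this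
    push_cast at h2
    linarith
  have hYX' : (X : ℝ) / 4 ≤ Y := by
    have : X < 4 * Y := by omega
    have h2 : (X : ℝ) < ((4 * Y : ℕ) : ℝ) := by exact_mod_cast this
    push_cast at h2
    linarith
  have hlog4X : Real.log ((4 * X : ℕ) : ℝ) ≤ 2 * Real.log X := by
    push_cast
    rw [Real.log_mul (by norm_num) hX0.ne']
    linarith
  have hlogX4 : Real.log X ≤ Real.log ((4 * X : ℕ) : ℝ) := by
    apply Real.log_le_log hX0
    push_cast
    linarith
  obtain ⟨T, hT⟩ : ∃ T : ℕ, T = ⌈Real.log ((4 * X : ℕ) : ℝ) ^ 45 / c₁⌉₊ := ⟨_, rfl⟩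
  have hTge : Real.log ((4 * X : ℕ) : ℝ) ^ 45 / c₁ ≤ T := by rw [hT]; exact Nat.le_ceil _
  have hlog1 : (1 : ℝ) ≤ Real.log X ^ 45 := one_le_pow₀ (by linarith)
  have hTle : (T : ℝ) ≤ C * Real.log X ^ 45 := by
    have h1 : (T : ℝ) ≤ Real.log ((4 * X : ℕ) : ℝ) ^ 45 / c₁ + 1 := by
      rw [hT]; exact (Nat.ceil_lt_add_one (by positivity)).le
    have h2 : Real.log ((4 * X : ℕ) : ℝ) ^ 45 ≤ 2 ^ 45 * Real.log X ^ 45 := by
      rw [← mul_pow]
      exact pow_le_pow_left₀ (by linarith) hlog4X 45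
    calc (T : ℝ) ≤ Real.log ((4 * X : ℕ) : ℝ) ^ 45 / c₁ + 1 := h1
      _ ≤ 2 ^ 45 * Real.log X ^ 45 / c₁ + Real.log X ^ 45 := by gcongr
      _ = C * Real.log X ^ 45 := by rw [hC]; ring
  have hTY : T ≤ Y := by
    have : (T : ℝ) ≤ Y := by linarith
    exact_mod_cast this
  have hTX : T + 1 ≤ X / 2 := by
    have h1 : (T : ℝ) + 1 ≤ X / 4 := by linarith
    have h2 : ((4 * (T + 1) : ℕ) : ℝ) ≤ X := by push_cast; linarith
    have h3 : 4 * (T + 1) ≤ X := by exact_mod_cast h2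
    omega
  have hT0 : 0 < T := by
    have h1 : 0 < Real.log ((4 * X : ℕ) : ℝ) ^ 45 / c₁ := by
      have : 0 < Real.log ((4 * X : ℕ) : ℝ) := by linarith
      positivity
    have h2 : (0 : ℝ) < T := by linarith
    exact_mod_cast h2
  -- regular elements
  obtain ⟨G, hG⟩ : ∃ G : Set ℕ, G = {n | n ∈ A ∧ (N A (n - T) (n + T) : ℝ) ≤ C'} := ⟨_, rfl⟩
  have hpiece : ∀ i ∈ range 8, (N A (X + i * Y) (X + i * Y + Y) : ℝ) ≤
      (N G (X + i * Y) (X + i * Y + Y) : ℝ) + c / 8 * (Y / Real.log X ^ 45) := by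
    intro i hi
    rw [mem_range] at hi
    obtain ⟨g1, g2, g3⟩ := hp i hi
    have hu : X ≤ X + i * Y := by omega
    have hlogu : Real.log X ≤ Real.log ((X + i * Y : ℕ) : ℝ) :=
      Real.log_le_log hX0 (by exact_mod_cast hu)
    have hlogu2 : Real.log ((X + i * Y : ℕ) : ℝ) ≤ Real.log ((4 * X : ℕ) : ℝ) := by
      apply Real.log_le_log (by exact_mod_cast (by omega : 0 < X + i * Y))
      have : X + i * Y ≤ 4 * X := by omega
      exact_mod_cast this
    have hna := hX₀ (X + i * Y) (by omega) Y g1 g2 A hA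
    have hsub : (Ioc (X + i * Y) (X + i * Y + Y)).filter (fun n => n ∈ A) ⊆
        (Ioc (X + i * Y) (X + i * Y + Y)).filter (fun n => n ∈ G) ∪
        (Ioc (X + i * Y) (X + i * Y + Y)).filter (fun n => n ∈ Irregular A 45 c₁ 1 B (X + i * Y) Y) := by
      intro n hn
      rw [mem_filter] at hn
      rw [mem_union, mem_filter, mem_filter]
      by_cases hon : n ∈ Irregular A 45 c₁ 1 B (X + i * Y) Y
      · right
        exact ⟨hn.1, hon⟩
      · left
        refine ⟨hn.1, ?_⟩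
        rw [hG]
        refine ⟨hn.2, ?_⟩
        have hro : RightOrder A 45 c₁ (X + i * Y) Y n := by
          by_contra hcon
          exact hon ⟨hn.2, fun h => hcon h.1⟩
        have h1 := (hro T T hTY hTY (by
          have h2 : Real.log ((X + i * Y : ℕ) : ℝ) ^ 45 ≤ Real.log ((4 * X : ℕ) : ℝ) ^ 45 :=
            pow_le_pow_left₀ (by linarith) hlogu2 45
          rw [div_le_iff₀ hc₁] at hTge
          have h3 : 0 ≤ (T : ℝ) * c₁ := by positivity
          linarith)).2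
        refine h1.trans ?_
        have hl45 : Real.log X ^ 45 ≤ Real.log ((X + i * Y : ℕ) : ℝ) ^ 45 := pow_le_pow_left₀ hlog.le hlogu 45
        calc ((T : ℝ) + T) / (c₁ * Real.log ((X + i * Y : ℕ) : ℝ) ^ 45) ≤
            ((T : ℝ) + T) / (c₁ * Real.log X ^ 45) := by
              apply div_le_div_of_nonneg_left (by positivity) (by positivity)
              exact mul_le_mul_of_nonneg_left hl45 hc₁.le
          _ ≤ (C * Real.log X ^ 45 + C * Real.log X ^ 45) / (c₁ * Real.log X ^ 45) := by gcongr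
          _ = C' := by rw [hC']; field_simp; ring
    have hcard := (card_le_card hsub).trans (card_union_le _ _)
    have hcard' : (N A (X + i * Y) (X + i * Y + Y) : ℝ) ≤ (N G (X + i * Y) (X + i * Y + Y) : ℝ) +
        (N (Irregular A 45 c₁ 1 B (X + i * Y) Y) (X + i * Y) (X + i * Y + Y) : ℝ) := by
      unfold N
      exact_mod_cast hcard
    refine hcard'.trans (add_le_add le_rfl (hna.trans ?_))
    apply mul_le_mul_of_nonneg_left _ (by positivity)
    apply div_le_div_of_nonneg_left (Nat.cast_nonneg _) (by positivity)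
    exact pow_le_pow_left₀ hlog.le hlogu 45
  have hsumN : ∑ i ∈ range 8, N G (X + i * Y) (X + i * Y + Y) ≤ N G X (4 * X) := by
    unfold N
    rw [← card_biUnion]
    · apply card_le_card
      intro n hn
      rw [mem_biUnion] at hn
      obtain ⟨i, hi, hn⟩ := hn
      rw [mem_range] at hi
      rw [mem_filter, mem_Ioc] at hn ⊢
      obtain ⟨g1, g2, g3⟩ := hp i hi
      exact ⟨⟨by omega, by omega⟩, hn.2⟩
    · intro i _ j _ hij
      rw [Function.onFun, disjoint_left]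
      intro n h1 h2
      rw [mem_filter, mem_Ioc] at h1 h2
      have hY0 : 0 < Y := by omega
      rcases lt_or_gt_of_ne hij with h | h
      · have : (i + 1) * Y ≤ j * Y := Nat.mul_le_mul_right _ h
        rw [add_mul, one_mul] at this
        omega
      · have : (j + 1) * Y ≤ i * Y := Nat.mul_le_mul_right _ h
        rw [add_mul, one_mul] at this
        omega
  have hcov := piece_cover A X
  have h1 : (N A X (3 * X) : ℝ) ≤ (N G X (4 * X) : ℝ) + 8 * (c / 8 * (Y / Real.log X ^ 45)) := by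
    calc (N A X (3 * X) : ℝ) ≤ ((∑ i ∈ range 8, N A (X + i * Y) (X + i * Y + Y) : ℕ) : ℝ) := by
          exact_mod_cast hcov
      _ = ∑ i ∈ range 8, (N A (X + i * Y) (X + i * Y + Y) : ℝ) := by push_cast; rfl
      _ ≤ ∑ i ∈ range 8, ((N G (X + i * Y) (X + i * Y + Y) : ℝ) + c / 8 * (Y / Real.log X ^ 45)) :=
          sum_le_sum hpiece
      _ = ((∑ i ∈ range 8, N G (X + i * Y) (X + i * Y + Y) : ℕ) : ℝ) + 8 * (c / 8 * (Y / Real.log X ^ 45)) := by
          rw [sum_add_distrib, sum_const, card_range, nsmul_eq_mul]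
          push_cast
          rfl
      _ ≤ _ := by
          have : ((∑ i ∈ range 8, N G (X + i * Y) (X + i * Y + Y) : ℕ) : ℝ) ≤ (N G X (4 * X) : ℝ) := by
            exact_mod_cast hsumN
          linarith
  have h2 : 8 * (c / 8 * ((Y : ℝ) / Real.log X ^ 45)) ≤ c / 2 * ((X : ℝ) / Real.log X ^ 45) := by
    calc 8 * (c / 8 * ((Y : ℝ) / Real.log X ^ 45)) = c * (Y / Real.log X ^ 45) := by ring
      _ ≤ c * ((X / 2) / Real.log X ^ 45) := by gcongr
      _ = _ := by ring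
  have h3 : c / 2 * ((X : ℝ) / Real.log X ^ 45) ≤ (N G X (4 * X) : ℝ) := by linarith
  -- double counting
  obtain ⟨S, hS⟩ : ∃ S : Set ℕ, S = {x | ∃ n ∈ A, x < n ∧ (n : ℝ) ≤ x + C * Real.log X ^ 45} := ⟨_, rfl⟩
  rw [← hS]
  have hdc := Finset.sum_card_bipartiteAbove_eq_sum_card_bipartiteBelow
    (s := (Ioc X (4 * X)).filter (fun n => n ∈ G)) (t := (Ioc (X / 2) (4 * X)))
    (fun (n x : ℕ) => x < n ∧ n ≤ x + T)
  have hleft : ∀ n ∈ (Ioc X (4 * X)).filter (fun n => n ∈ G),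
      ((Ioc (X / 2) (4 * X)).bipartiteAbove (fun (n x : ℕ) => x < n ∧ n ≤ x + T) n).card = T := by
    intro n hn
    rw [mem_filter, mem_Ioc] at hn
    have e : (Ioc (X / 2) (4 * X)).bipartiteAbove (fun (n x : ℕ) => x < n ∧ n ≤ x + T) n = Ico (n - T) n := by
      ext x
      rw [mem_bipartiteAbove, mem_Ioc, mem_Ico]
      omega
    rw [e, Nat.card_Ico]
    omega
  have hright : ∀ x ∈ Ioc (X / 2) (4 * X),
      ((((Ioc X (4 * X)).filter (fun n => n ∈ G)).bipartiteBelow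
        (fun (n x : ℕ) => x < n ∧ n ≤ x + T) x).card : ℝ) ≤ if x ∈ S then C' else 0 := by
    intro x hx
    by_cases hex : ∃ n ∈ (Ioc X (4 * X)).filter (fun n => n ∈ G), x < n ∧ n ≤ x + T
    · obtain ⟨n, hn, hxn, hnx⟩ := hex
      rw [mem_filter, hG] at hn
      obtain ⟨hn1, hnA, hnC⟩ := hn
      have hxS : x ∈ S := by
        rw [hS]
        refine ⟨n, hnA, hxn, ?_⟩
        have : (n : ℝ) ≤ ((x + T : ℕ) : ℝ) := by exact_mod_cast hnx
        push_cast at this
        linarith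
      rw [if_pos hxS]
      refine le_trans ?_ hnC
      unfold N
      apply Nat.cast_le.2
      apply card_le_card
      intro m hm
      rw [mem_bipartiteBelow, mem_filter] at hm
      obtain ⟨⟨hm1, hm2⟩, hm3, hm4⟩ := hm
      rw [hG] at hm2
      rw [mem_filter, mem_Ioc]
      exact ⟨⟨by omega, by omega⟩, hm2.1⟩
    · have e : ((Ioc X (4 * X)).filter (fun n => n ∈ G)).bipartiteBelow
        (fun (n x : ℕ) => x < n ∧ n ≤ x + T) x = ∅ := by
        apply eq_empty_of_forall_notMem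
        intro m hm
        rw [mem_bipartiteBelow] at hm
        exact hex ⟨m, hm.1, hm.2⟩
      rw [e, card_empty, Nat.cast_zero]
      split_ifs
      · exact hC'0.le
      · exact le_rfl
  have h4 : (T : ℝ) * (N G X (4 * X) : ℝ) ≤ C' * (N S (X / 2) (4 * X) : ℝ) := by
    have e1 : (T : ℝ) * (N G X (4 * X) : ℝ) = ((∑ n ∈ (Ioc X (4 * X)).filter (fun n => n ∈ G),
        ((Ioc (X / 2) (4 * X)).bipartiteAbove (fun (n x : ℕ) => x < n ∧ n ≤ x + T) n).card : ℕ) : ℝ) := by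
      rw [sum_congr rfl hleft, sum_const, smul_eq_mul]
      unfold N
      push_cast
      ring
    rw [e1, hdc]
    push_cast
    refine (sum_le_sum hright).trans (le_of_eq ?_)
    rw [← sum_filter, sum_const, nsmul_eq_mul]
    unfold N
    ring
  have h5 : Real.log X ^ 45 / c₁ ≤ T := by
    refine le_trans ?_ hTge
    gcongr
  have h6 : c / (2 * c₁) * X ≤ C' * (N S (X / 2) (4 * X) : ℝ) := by
    refine le_trans ?_ h4
    calc c / (2 * c₁) * X = (Real.log X ^ 45 / c₁) * (c / 2 * (X / Real.log X ^ 45)) := by field_simp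
      _ ≤ (T : ℝ) * (N G X (4 * X) : ℝ) := mul_le_mul h5 h3 (by positivity) (Nat.cast_nonneg _)
  rw [div_mul_eq_mul_div, div_le_iff₀ hC'0]
  linarith

end Pool.Agent.Helper2.NR
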