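import Pool.Agent.Helper2.NR.Comb

/-!
# Consecutive primes in admissible 45-tuples of rough numbers: all parts together
-/

set_option autoImplicit false

open Finset Filter

namespace Pool.Agent.Helper2.NR

open Pool.Agent.H95R2.BG (Admissible)
open Pool.Agent.Q25.Arb

lemma onProg_mono {A : Set ℕ} {l l' : ℕ} {D : ℝ} {u v n : ℕ} (hl : 1 ≤ l) (hll : l ≤ l')
    (h : OnProgression A l' D u v n) : OnProgression A l D u v n := by
  obtain ⟨m, d, h1, h2, h3, i, hi, rfl⟩ := h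
  obtain ⟨s, hs⟩ : ∃ s, s = min i (l' - l) := ⟨_, rfl⟩
  refine ⟨m + s * d, d, h1, h2, fun j hj => ?_, i - s, by omega, ?_⟩
  · have e : m + s * d + j * d = m + (s + j) * d := by ring
    rw [e]
    exact h3 (s + j) (by omega)
  · have e : i = s + (i - s) := by omega
    calc m + i * d = m + (s + (i - s)) * d := by rw [← e]
      _ = _ := by ring

lemma onProg_sub {A : Set ℕ} {l : ℕ} {D : ℝ} {u v n : ℕ} (h : OnProgression A l D u v n) : n ∈ A ∧ u < n ∧ n ≤ v := by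
  obtain ⟨m, d, h1, h2, h3, i, hi, rfl⟩ := h
  exact h3 i hi

/-- finite choice: eventually some index, hence some index frequently -/
lemma freq_of_ev {ι : Type*} [Finite ι] {P : ι → ℕ → Prop} (h : ∀ᶠ X : ℕ in atTop, ∃ i, P i X) :
    ∃ i, ∃ᶠ X : ℕ in atTop, P i X := by
  by_contra hcon
  push Not at hcon
  have h1 : ∀ᶠ X : ℕ in atTop, ∀ i, ¬ P i X := eventually_all.2 hcon
  obtain ⟨X, hX1, i, hX2⟩ := (h1.and h).exists
  exact hX1 i hX2

/-- Long narrow progressions: one pair of positions for every `X`, for all lengths. -/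
theorem general (h : Fin 45 → ℕ) (hadm : Admissible h) : ∃ r₀ : ℕ, ∀ r : ℕ, r₀ ≤ r →
    ∃ (c : ℝ) (q : ℕ → Fin 45 × Fin 45), 0 < c ∧ (∀ᶠ X : ℕ in atTop, h (q X).1 < h (q X).2) ∧
    ∀ l : ℕ, 1 ≤ l → ∃ B : ℕ, ∀ᶠ X : ℕ in atTop, c * ((X : ℝ) / Real.log X ^ 45) ≤
      (N {n | OnProgression {n | Pat (univ.image h) r (h (q X).1) (h (q X).2) n} l (Real.log X ^ B) X (4 * X) n}
        X (4 * X) : ℝ) := by
  classical
  have hne : (univ.image h).Nonempty := ⟨h 0, mem_image_of_mem _ (mem_univ _)⟩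
  obtain ⟨r2, h2⟩ := count_pair h hadm
  obtain ⟨r3, h3⟩ := ap_transfer (univ.image h) hne (adm_conv hadm) (card_HH hadm.1)
  refine ⟨r2 + r3, fun r hr => ?_⟩
  obtain ⟨c2, hc2, hX2⟩ := h2 r (by omega)
  have hq : ∀ X : ℕ, ∃ q : Fin 45 × Fin 45, (∃ i j, h i < h j ∧ c2 * ((X : ℝ) / Real.log X ^ 45) ≤
      (N {n | Pat (univ.image h) r (h i) (h j) n} X (3 * X) : ℝ)) → h q.1 < h q.2 ∧
        c2 * ((X : ℝ) / Real.log X ^ 45) ≤ (N {n | Pat (univ.image h) r (h q.1) (h q.2) n} X (3 * X) : ℝ) := by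
    intro X
    by_cases hex : ∃ i j, h i < h j ∧ c2 * ((X : ℝ) / Real.log X ^ 45) ≤
      (N {n | Pat (univ.image h) r (h i) (h j) n} X (3 * X) : ℝ)
    · obtain ⟨i, j, h4⟩ := hex
      exact ⟨(i, j), fun _ => h4⟩
    · exact ⟨(0, 0), fun h5 => absurd h5 hex⟩
  choose q hq using hq
  refine ⟨c2 / 2, q, by positivity, ?_, ?_⟩
  · filter_upwards [hX2] with X hX
    exact (hq X hX).1
  · intro l hl
    obtain ⟨B, hB⟩ := h3 r (by omega) c2 hc2 (l + 1) (by omega)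
    refine ⟨B, ?_⟩
    filter_upwards [hB, hX2] with X hX hX'
    refine (hX {n | Pat (univ.image h) r (h (q X).1) (h (q X).2) n} (fun n hn => hn.2.2.2) (hq X hX').2).trans ?_
    refine Nat.cast_le.2 (N_mono ?_ _ _)
    rintro n ⟨_, hn⟩
    exact onProg_mono hl (Nat.le_succ l) hn

/-- one pair of positions -/
theorem general_one (h : Fin 45 → ℕ) (hadm : Admissible h) : ∃ r₀ : ℕ, ∀ r : ℕ, r₀ ≤ r →
    ∃ (c : ℝ) (i j : Fin 45), 0 < c ∧ h i < h j ∧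
    ∀ l : ℕ, 1 ≤ l → ∃ B : ℕ, ∃ᶠ X : ℕ in atTop, c * ((X : ℝ) / Real.log X ^ 45) ≤
      (N {n | OnProgression {n | Pat (univ.image h) r (h i) (h j) n} l (Real.log X ^ B) X (4 * X) n}
        X (4 * X) : ℝ) := by
  obtain ⟨r₀, hr₀⟩ := general h hadm
  refine ⟨r₀, fun r hr => ?_⟩
  obtain ⟨c, q, hc, hq, hl⟩ := hr₀ r hr
  obtain ⟨q₀, hq₀⟩ := freq_of_ev (P := fun (q₀ : Fin 45 × Fin 45) X => q X = q₀ ∧ h q₀.1 < h q₀.2) (by
    filter_upwards [hq] with X hX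
    exact ⟨q X, rfl, hX⟩)
  obtain ⟨_, _, hlt⟩ := hq₀.exists
  refine ⟨c, q₀.1, q₀.2, hc, hlt, fun l hl1 => ?_⟩
  obtain ⟨B, hB⟩ := hl l hl1
  refine ⟨B, ?_⟩
  refine (hq₀.and_eventually hB).mono ?_
  rintro X ⟨⟨hX1, _⟩, hX2⟩
  rw [hX1] at hX2
  exact hX2

/-- a positive proportion of short intervals -/
theorem general_iv (h : Fin 45 → ℕ) (hadm : Admissible h) : ∃ r₀ : ℕ, ∀ r : ℕ, r₀ ≤ r →
    ∃ C κ : ℝ, 0 < C ∧ 0 < κ ∧ ∀ᶠ X : ℕ in atTop,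
      κ * X ≤ (N {x | ∃ n ∈ PatU h r, x < n ∧ (n : ℝ) ≤ x + C * Real.log X ^ 45} (X / 2) (4 * X) : ℝ) := by
  have hne : (univ.image h).Nonempty := ⟨h 0, mem_image_of_mem _ (mem_univ _)⟩
  obtain ⟨r1, h1⟩ := count_all h hadm
  obtain ⟨r4, h4⟩ := iv_transfer (univ.image h) hne (adm_conv hadm) (card_HH hadm.1)
  refine ⟨r1 + r4, fun r hr => ?_⟩
  obtain ⟨c1, hc1, hX1⟩ := h1 r (by omega)
  obtain ⟨C, κ, hC, hκ, hX⟩ := h4 r (by omega) c1 hc1
  refine ⟨C, κ, hC, hκ, ?_⟩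
  filter_upwards [hX, hX1] with X hX hX'
  exact hX (PatU h r) (fun n hn => by
    obtain ⟨i, j, _, hp⟩ := hn
    exact hp.2.2.2) hX'

end Pool.Agent.Helper2.NR
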