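import Pool.Graph.R_seed8.Y826.ZC.Cons
import Pool.Graph.R_seed8.H387R2.MB5

/-!
# The contribution of the integers with a small prime factor to the sieve weights of `DHL[45,2]`
-/

set_option autoImplicit false

open Finset Filter
open scoped ContDiff

namespace Pool.Agent.Helper2.NR

open Pool.Agent.H378R2 Pool.Agent.H95R2.BG
open Pool.Agent.H387R2.MB (shf shift_sieve_bound VV_shift VV_same class_p nu_p BE_insert log_div_le_one)

lemma size_ev {τ : ℝ} (hτ : 0 < τ) (D : ℕ) :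
    ∀ᶠ X : ℝ in atTop, (WD D : ℝ) * Real.exp (τ * Real.log X) * Real.exp (4 * Lt τ X) ≤ X := by
  have h1 : ∀ᶠ X : ℝ in atTop, (WD D : ℝ) ≤ X ^ (3 * τ) :=
    (tendsto_rpow_atTop (by positivity : (0 : ℝ) < 3 * τ)).eventually_ge_atTop _
  filter_upwards [h1, eventually_gt_atTop (0 : ℝ)] with X h2 hX0
  have e : Real.exp (τ * Real.log X) * Real.exp (4 * Lt τ X) * X ^ (3 * τ) = X := by
    rw [Real.rpow_def_of_pos hX0, ← Real.exp_add, ← Real.exp_add]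
    have : τ * Real.log X + 4 * Lt τ X + Real.log X * (3 * τ) = Real.log X := by unfold Lt; ring
    rw [this, Real.exp_log hX0]
  calc (WD D : ℝ) * Real.exp (τ * Real.log X) * Real.exp (4 * Lt τ X) ≤
      X ^ (3 * τ) * Real.exp (τ * Real.log X) * Real.exp (4 * Lt τ X) := by gcongr
    _ = Real.exp (τ * Real.log X) * Real.exp (4 * Lt τ X) * X ^ (3 * τ) := by ring
    _ = X := e

/-- contribution of a prime `p > D` -/
theorem stepB {K : ℕ} (τ : ℝ) (hτ : 0 < τ) (hτ' : τ < 1 / 8) (g : Fin K → ℝ → ℝ) (c : Fin K → ℝ)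
    (hg : ∀ j, GF (g j) (c j)) (hs : ∑ j, c j ≤ 2) (j0 : Fin K) :
    ∃ C : ℝ, 0 ≤ C ∧ ∀ D : ℕ, 32 * K + 2 ≤ D → ∀ h : Fin K → ℕ, Sep D h → ∀ a : ℕ, ∀ᶠ X : ℝ in atTop,
      ∀ p : ℕ, p.Prime → D < p → (p : ℝ) ≤ Real.exp (τ * Real.log X) →
      ∑ n ∈ Icc 1 ⌊3 * X⌋₊, nu X (WD D) a n * (if (p : ℤ) ∣ (n : ℤ) + h j0 then
        ∏ j, (vv τ D X (g j) ((n : ℤ) + h j) * vv τ D X (g j) ((n : ℤ) + h j)) else 0) ≤
      NN τ D X K * (2 ^ K * C * ((Real.log p / Lt τ X) ^ 2 / p)) +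
        5 * 2 ^ (2 * K) * Real.exp (4 * Lt τ X) := by
  classical
  obtain ⟨C, hC0, hC⟩ := shift_sieve_bound K g g (fun j => (hg j).smooth) (fun j => (hg j).smooth)
    (fun j => (hg j).compact) (fun j => (hg j).compact) j0
  refine ⟨C, hC0, fun D hD h hsep a => ?_⟩
  have hτ4 : τ < 1 / 4 := by linarith
  have hLt := Lt_tendsto hτ4
  have hr : Tendsto (fun X : ℝ => (Lt τ X) ^ (1 / 4 : ℝ)) atTop atTop :=
    (tendsto_rpow_atTop (by norm_num)).comp hLt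
  have hll : Tendsto (fun X : ℝ => Real.log (Lt τ X)) atTop atTop := Real.tendsto_log_atTop.comp hLt
  have e1 : ∀ᶠ X : ℝ in atTop, ∑ p ∈ PD D, Real.log p / p + 1 ≤ (Lt τ X) ^ (1 / 4 : ℝ) :=
    hr.eventually_ge_atTop _
  have e2 : ∀ᶠ X : ℝ in atTop, ∑ p ∈ PD D, (1 : ℝ) / p + 1 ≤ Real.log (Lt τ X) / 32 :=
    (hll.atTop_div_const (by norm_num)).eventually_ge_atTop _
  filter_upwards [e1, e2, size_ev hτ D, hLt.eventually_ge_atTop 2, eventually_ge_atTop 40] with X h1 h2 h4 h5 hX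
  intro p hp hpD hpX
  have hL0 : 0 < Lt τ X := by linarith
  have hp0 : (0:ℝ) < p := by exact_mod_cast hp.pos
  have hW0 : (0:ℝ) < WD D := by exact_mod_cast WD_pos D
  set E := PD D with hE
  have hpE : p ∉ E := fun h => by have := (mem_PD.1 h).1.2; omega
  have hdv : ∀ r : ℕ, r.Prime → r ∉ E → ¬ r ∣ WD D := fun r hr hrE hd => hrE ((prime_dvd_WD hr).1 hd)
  set u := Real.log p / Lt τ X with hu
  have hu0 : 0 ≤ u := div_nonneg (Real.log_natCast_nonneg p) hL0.le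
  obtain ⟨b, hb⟩ := class_p (a0 := a) (t := h j0) (WD_pos D) hp (hdv p hp hpE)
  have hvan : ∀ (l : Fin K) (x : ℝ), Real.log (Rt τ X) / Lt τ X < x → g l x = 0 := by
    intro l x hx
    have h7 : 2 < x := lt_of_le_of_lt (Rt_ge (by linarith)) hx
    exact (hg l).zero x (lt_of_le_of_lt (hg l).le_two h7)
  set G := shf g j0 u with hG
  have hG2 : ∀ j x, |G j x| ≤ 2 := by
    intro j x
    rw [hG]
    unfold shf
    split_ifs
    · have h1 := (hg j).bdd x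
      have h2 := (hg j).bdd (x + u)
      have := abs_sub (g j x) (g j (x + u))
      linarith
    · have h1 := (hg j).bdd x
      linarith
  have hG0 : ∀ j x, c j < x → G j x = 0 := by
    intro j x hx
    rw [hG]
    unfold shf
    split_ifs
    · rw [(hg j).zero x hx, (hg j).zero (x + u) (by linarith), sub_zero]
    · exact (hg j).zero x hx
  have hpr : ∀ r ∈ insert p E, r.Prime := by
    intro r hr
    rcases mem_insert.1 hr with rfl | hr
    · exact hp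
    · exact (mem_PD.1 hr).2
  have hsm : ∀ r : ℕ, r.Prime → r ≤ 32 * K + 2 → r ∈ insert p E := fun r hr hrz =>
    mem_insert_of_mem (mem_PD' hr (hrz.trans hD))
  have hs1 : ∑ q ∈ insert p E, Real.log q / q ≤ (Lt τ X) ^ (1 / 4 : ℝ) := by
    rw [sum_insert hpE]
    have := log_div_le_one hp
    linarith
  have hs2 : ∑ q ∈ insert p E, (1 : ℝ) / q ≤ Real.log (Lt τ X) / 32 := by
    rw [sum_insert hpE]
    have h1 : (1:ℝ) / p ≤ 1 := by
      rw [div_le_one (by exact_mod_cast hp.pos)]; exact_mod_cast hp.one_lt.le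
    linarith
  have hexp4 : Real.exp (Lt τ X * (∑ j, c j + ∑ j, c j)) ≤ Real.exp (4 * Lt τ X) := by
    apply Real.exp_le_exp.2
    nlinarith
  have hsize : ((WD D * p : ℕ) : ℝ) * Real.exp (Lt τ X * (∑ j, c j + ∑ j, c j)) ≤ X := by
    refine le_trans ?_ h4
    push_cast
    have : (0:ℝ) ≤ (WD D : ℝ) * p := by positivity
    calc (WD D : ℝ) * p * Real.exp (Lt τ X * (∑ j, c j + ∑ j, c j)) ≤
        (WD D : ℝ) * p * Real.exp (4 * Lt τ X) := mul_le_mul_of_nonneg_left hexp4 this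
      _ ≤ (WD D : ℝ) * Real.exp (τ * Real.log X) * Real.exp (4 * Lt τ X) := by gcongr
  have hdv' : ∀ r : ℕ, r.Prime → r ∉ insert p E → ¬ r ∣ WD D * p := by
    intro r hr hrE hrd
    rcases (Nat.Prime.dvd_mul hr).1 hrd with h | h
    · exact hdv r hr (fun h' => hrE (mem_insert_of_mem h')) h
    · have : r = p := (Nat.prime_dvd_prime_iff_eq hr hp).1 h
      exact hrE (this ▸ mem_insert_self _ _)
  have k1 := sum1 X (by linarith) (WD D * p) b (Nat.mul_pos (WD_pos D) hp.pos) G G (Lt τ X) 2 hL0 (by norm_num) c c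
    hG2 hG2 hG0 hG0 (fun _ => insert p E) (Rt τ X) (fun _ => 1) (fun j => (h j : ℤ))
    (fun _ r hr hrE => hdv' r hr hrE)
    (fun _ r hr _ hd => hr.one_lt.ne' (Nat.dvd_one.1 hd))
    (by
      intro i j hij r hr hrE _ n hh
      have hrD : D < r := by
        by_contra hc
        push Not at hc
        exact hrE (mem_insert_of_mem (mem_PD' hr hc))
      apply hsep i j hij r hr hrD
      have := dvd_sub hh.1 hh.2
      have h7 : ((1 : ℕ) : ℤ) * n + h i - (((1 : ℕ) : ℤ) * n + h j) = h i - h j := by ring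
      rwa [h7] at this)
    hsize
  have k2 := hC u hu0 (Lt τ X) (fun _ => insert p E) (fun q _ => 1 / (q : ℝ)) (Rt τ X) h5
    (fun j x hx => ⟨hvan j x hx, hvan j x hx⟩) (fun _ => hpr) (fun _ => hsm) (fun _ => hs1)
    (fun _ => hs2) (fun _ q _ _ => w_one q)
  have e1 : ∏ j : Fin K, (Lt τ X * ∏ p ∈ insert p E, (1 - 1 / (p : ℝ))) = (Lt τ X * BE (insert p E)) ^ K := by
    rw [Finset.prod_const, Finset.card_univ, Fintype.card_fin]
    rfl
  rw [e1] at k2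
  set SS := sieveSum K G G (Lt τ X) (fun _ => insert p E) (fun q _ => 1 / (q : ℝ)) (Rt τ X) with hSS
  have hBE : 0 < BE E := BE_PD_pos D
  have hBE' : 0 < BE (insert p E) := BE_pos hpr
  have hBE2 : BE E / 2 ≤ BE (insert p E) := by
    rw [BE_insert hpE]
    have h1 : (1:ℝ) / p ≤ 1 / 2 := one_div_le_one_div_of_le (by norm_num) (by exact_mod_cast hp.two_le)
    nlinarith
  have k3 : SS ≤ 1 / (Lt τ X * BE E) ^ K * (2 ^ K * (C * u ^ 2)) := by
    have h1 : (Lt τ X * BE (insert p E)) ^ K * SS ≤ C * u ^ 2 := (le_abs_self _).trans k2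
    have h2 : (Lt τ X * BE E / 2) ^ K ≤ (Lt τ X * BE (insert p E)) ^ K := by
      apply pow_le_pow_left₀ (by positivity)
      calc Lt τ X * BE E / 2 = Lt τ X * (BE E / 2) := by ring
        _ ≤ _ := mul_le_mul_of_nonneg_left hBE2 hL0.le
    have h3 : SS ≤ C * u ^ 2 / (Lt τ X * BE (insert p E)) ^ K := by
      rw [le_div_iff₀ (by positivity)]
      linarith
    refine h3.trans ?_
    calc C * u ^ 2 / (Lt τ X * BE (insert p E)) ^ K ≤ C * u ^ 2 / (Lt τ X * BE E / 2) ^ K := by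
          apply div_le_div_of_nonneg_left (by positivity) (by positivity) h2
      _ = _ := by
          have e5 : (Lt τ X * BE E / 2) ^ K = (Lt τ X * BE E) ^ K / 2 ^ K := div_pow _ _ _
          rw [e5]
          have : (Lt τ X * BE E) ^ K ≠ 0 := by positivity
          field_simp
  have hM : 0 ≤ MPhi X := by have := MPhi_ge X hX; linarith
  have e2 : ∀ n ∈ Icc 1 ⌊3 * X⌋₊, nu X (WD D) a n * (if (p : ℤ) ∣ (n : ℤ) + h j0 then
        ∏ j, (vv τ D X (g j) ((n : ℤ) + h j) * vv τ D X (g j) ((n : ℤ) + h j)) else 0) =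
      (if n ≡ b [MOD (WD D * p)] then Phi (n / X) else 0) *
        ∏ j, (VVm (insert p E) (Rt τ X) (Lt τ X) (G j) (((1 : ℕ) : ℤ) * n + h j) *
        VVm (insert p E) (Rt τ X) (Lt τ X) (G j) (((1 : ℕ) : ℤ) * n + h j)) := by
    intro n _
    have e3 : (if n ≡ b [MOD (WD D * p)] then Phi (n / X) else 0) = nu X (WD D * p) b n := rfl
    rw [e3, ← nu_p hb n]
    congr 1
    by_cases hd : (p : ℤ) ∣ (n : ℤ) + h j0
    · rw [if_pos hd, if_pos hd]
      apply prod_congr rfl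
      intro j _
      have : vv τ D X (g j) ((n : ℤ) + h j) = VVm (insert p E) (Rt τ X) (Lt τ X) (G j) (((1 : ℕ) : ℤ) * n + h j) := by
        rw [Nat.cast_one, one_mul]
        unfold vv
        by_cases hj : j = j0
        · subst hj
          rw [VV_shift (PD D) (Rt τ X) (Lt τ X) hL0 (g j) p hp hpE (hvan j) _ hd]
          congr 1
          funext x
          rw [hG]
          unfold shf
          rw [if_pos rfl]
        · have hnd : ¬ (p : ℤ) ∣ (n : ℤ) + h j := by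
            intro h'
            apply hsep j j0 hj p hp hpD
            have := dvd_sub h' hd
            have h7 : (n : ℤ) + h j - ((n : ℤ) + h j0) = h j - h j0 := by ring
            rwa [h7] at this
          rw [VV_same (PD D) (Rt τ X) (Lt τ X) (g j) p hp _ hnd]
          congr 1
          funext x
          rw [hG]
          unfold shf
          rw [if_neg hj]
      rw [this]
    · rw [if_neg hd, if_neg hd]
  rw [sum_congr rfl e2]
  have k4 := (abs_le.1 k1).2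
  have k5 : MPhi X * (1 / ((WD D * p : ℕ) : ℝ)) * SS ≤
      NN τ D X K * (2 ^ K * C * (u ^ 2 / p)) := by
    calc MPhi X * (1 / ((WD D * p : ℕ) : ℝ)) * SS ≤ MPhi X * (1 / ((WD D * p : ℕ) : ℝ)) *
          (1 / (Lt τ X * BE E) ^ K * (2 ^ K * (C * u ^ 2))) := mul_le_mul_of_nonneg_left k3 (by positivity)
      _ = NN τ D X K * (2 ^ K * C * (u ^ 2 / p)) := by
        unfold NN
        rw [one_div_pow]
        have hne : (Lt τ X * BE E) ^ K ≠ 0 := by positivity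
        push_cast
        rw [← hE]
        generalize (Lt τ X * BE E) ^ K = y at hne ⊢
        field_simp
  have k6 : 5 * (2 : ℝ) ^ (2 * K) * Real.exp (Lt τ X * (∑ j, c j + ∑ j, c j)) ≤
      5 * 2 ^ (2 * K) * Real.exp (4 * Lt τ X) := mul_le_mul_of_nonneg_left hexp4 (by positivity)
  linarith

/-- negligible errors -/
theorem err_small2 {τ : ℝ} (hτ : 0 < τ) (hτ' : τ < 1 / 8) (D J : ℕ) (c ε : ℝ) (hε : 0 < ε) :
    ∀ᶠ X : ℝ in atTop, c * Real.exp ((4 + τ) * Lt τ X) ≤ ε * NN τ D X J := by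
  have hW : (0 : ℝ) < WD D := by exact_mod_cast WD_pos D
  have hB := BE_PD_pos D
  have hB1 := BE_PD_le_one D
  have hc : (0 : ℝ) < |c| + 1 := by positivity
  have h1 := (isLittleO_log_rpow_rpow_atTop (J : ℝ) (by linarith : 0 < 3 * τ)).bound
    (by positivity : (0 : ℝ) < ε / (20 * (|c| + 1) * WD D))
  filter_upwards [h1, eventually_ge_atTop 40] with X h2 hX
  have hX0 : 0 < X := by linarith
  have hX1 : 1 < X := by linarith
  have hlog : 0 < Real.log X := Real.log_pos hX1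
  have hL := Lt_pos (by linarith : τ < 1 / 4) hX1
  have hM := MPhi_ge X hX
  rw [Real.rpow_natCast, Real.norm_of_nonneg (by positivity), Real.norm_of_nonneg (by positivity)] at h2
  have hXt : 0 < X ^ (3 * τ) := by positivity
  have e1 : Real.exp ((4 + τ) * Lt τ X) ≤ X / X ^ (3 * τ) := by
    rw [Real.rpow_def_of_pos hX0]
    rw [le_div_iff₀ (Real.exp_pos _), ← Real.exp_add]
    calc Real.exp ((4 + τ) * Lt τ X + Real.log X * (3 * τ)) ≤ Real.exp (Real.log X) := by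
          apply Real.exp_le_exp.2
          unfold Lt
          have : (4 + τ) * ((1 / 4 - τ) * Real.log X) + Real.log X * (3 * τ) =
              Real.log X - Real.log X * (3 / 4 * τ + τ ^ 2) := by ring
          rw [this]
          have : 0 ≤ Real.log X * (3 / 4 * τ + τ ^ 2) := by positivity
          linarith
      _ = X := Real.exp_log hX0
  have hLB : Lt τ X * BE (PD D) ≤ Real.log X := by
    unfold Lt
    have : (1 / 4 - τ) * Real.log X ≤ Real.log X := by nlinarith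
    have h0 : 0 ≤ (1 / 4 - τ) * Real.log X := by
      apply mul_nonneg (by linarith) hlog.le
    nlinarith
  have hLBpos : 0 < Lt τ X * BE (PD D) := by positivity
  have hpow : (Lt τ X * BE (PD D)) ^ J ≤ Real.log X ^ J := pow_le_pow_left₀ hLBpos.le hLB J
  have h3 : (20 * (|c| + 1) * WD D) * (Lt τ X * BE (PD D)) ^ J ≤ ε * X ^ (3 * τ) := by
    have := hpow.trans h2
    rw [div_mul_eq_mul_div, le_div_iff₀ (by positivity)] at this
    linarith
  have hM0 : 0 ≤ MPhi X := by linarith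
  calc c * Real.exp ((4 + τ) * Lt τ X) ≤ (|c| + 1) * (X / X ^ (3 * τ)) := by
        apply mul_le_mul _ e1 (Real.exp_pos _).le hc.le
        linarith [le_abs_self c]
    _ ≤ ε * (X / 20 * (1 / (WD D : ℝ)) * (1 / (Lt τ X * BE (PD D)) ^ J)) := by
        have e2 : ε * (X / 20 * (1 / (WD D : ℝ)) * (1 / (Lt τ X * BE (PD D)) ^ J)) =
            (ε * X) / (20 * WD D * (Lt τ X * BE (PD D)) ^ J) := by
          field_simp
        rw [e2, ← mul_div_assoc, div_le_div_iff₀ hXt (by positivity)]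
        calc (|c| + 1) * X * (20 * WD D * (Lt τ X * BE (PD D)) ^ J) =
            X * ((20 * (|c| + 1) * WD D) * (Lt τ X * BE (PD D)) ^ J) := by ring
          _ ≤ X * (ε * X ^ (3 * τ)) := mul_le_mul_of_nonneg_left h3 hX0.le
          _ = _ := by ring
    _ ≤ ε * NN τ D X J := by
        unfold NN
        rw [one_div_pow]
        gcongr

/-- primes in `(D, exp (ρ Lt)]` -/
noncomputable def PR (ρ τ : ℝ) (D : ℕ) (X : ℝ) : Finset ℕ :=
  (Icc 1 ⌊Real.exp (ρ * Lt τ X)⌋₊).filter (fun p => p.Prime ∧ D < p)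

lemma mem_PR {ρ τ : ℝ} {D : ℕ} {X : ℝ} {p : ℕ} :
    p ∈ PR ρ τ D X ↔ p.Prime ∧ D < p ∧ (p : ℝ) ≤ Real.exp (ρ * Lt τ X) := by
  unfold PR
  rw [mem_filter, mem_Icc]
  constructor
  · rintro ⟨⟨_, h2⟩, h3, h4⟩
    exact ⟨h3, h4, (Nat.le_floor_iff (Real.exp_pos _).le).1 h2⟩
  · rintro ⟨h1, h3, h2⟩
    exact ⟨⟨h1.one_lt.le, Nat.le_floor h2⟩, h1, h3⟩

lemma card_PR (ρ τ : ℝ) (D : ℕ) (X : ℝ) : ((PR ρ τ D X).card : ℝ) ≤ Real.exp (ρ * Lt τ X) := by
  unfold PR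
  have h1 := card_filter_le (Icc 1 ⌊Real.exp (ρ * Lt τ X)⌋₊) (fun p => p.Prime ∧ D < p)
  rw [Nat.card_Icc, Nat.add_sub_cancel] at h1
  calc ((((Icc 1 ⌊Real.exp (ρ * Lt τ X)⌋₊).filter (fun p => p.Prime ∧ D < p)).card : ℕ) : ℝ) ≤
        (⌊Real.exp (ρ * Lt τ X)⌋₊ : ℝ) := by exact_mod_cast h1
    _ ≤ _ := Nat.floor_le (Real.exp_pos _).le

lemma sum_u2 {ρ τ : ℝ} (hρ : 0 < ρ) (hτ : τ < 1 / 4) (D : ℕ) : ∀ᶠ X : ℝ in atTop,
    ∑ p ∈ PR ρ τ D X, (Real.log p / Lt τ X) ^ 2 / p ≤ 2 * ρ ^ 2 := by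
  obtain ⟨C1, hC1⟩ := Pool.Agent.Erdos456.Mert.mertens_log
  filter_upwards [(Lt_tendsto hτ).eventually_ge_atTop (max 1 (|C1| / ρ))] with X hX
  have hL : 1 ≤ Lt τ X := (le_max_left _ _).trans hX
  have hL0 : 0 < Lt τ X := by linarith
  have hLC : |C1| / ρ ≤ Lt τ X := (le_max_right _ _).trans hX
  have hN1 : 1 ≤ ⌊Real.exp (ρ * Lt τ X)⌋₊ := by
    apply Nat.le_floor
    rw [Nat.cast_one]
    exact Real.one_le_exp (by positivity)
  have h1 := (abs_le.1 (hC1 _ hN1)).2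
  have hlogN : Real.log (⌊Real.exp (ρ * Lt τ X)⌋₊ : ℝ) ≤ ρ * Lt τ X := by
    have : (⌊Real.exp (ρ * Lt τ X)⌋₊ : ℝ) ≤ Real.exp (ρ * Lt τ X) := Nat.floor_le (Real.exp_pos _).le
    have h2 := Real.log_le_log (by exact_mod_cast hN1) this
    rwa [Real.log_exp] at h2
  have h3 : ∑ p ∈ PR ρ τ D X, Real.log p / p ≤ ρ * Lt τ X + |C1| := by
    have h4 : ∑ p ∈ PR ρ τ D X, Real.log p / p ≤
        ∑ p ∈ (Icc 1 ⌊Real.exp (ρ * Lt τ X)⌋₊).filter Nat.Prime, Real.log p / p := by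
      apply sum_le_sum_of_subset_of_nonneg
      · intro p hp
        unfold PR at hp
        rw [mem_filter] at hp ⊢
        exact ⟨hp.1, hp.2.1⟩
      · intro p _ _
        have := Real.log_natCast_nonneg p
        positivity
    have := le_abs_self C1
    linarith
  have h4 : ∑ p ∈ PR ρ τ D X, (Real.log p / Lt τ X) ^ 2 / p ≤ (ρ / Lt τ X) * ∑ p ∈ PR ρ τ D X, Real.log p / p := by
    rw [mul_sum]
    apply sum_le_sum
    intro p hp
    rw [mem_PR] at hp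
    have hp0 : (0:ℝ) < p := by exact_mod_cast hp.1.pos
    have hlp : Real.log p ≤ ρ * Lt τ X := by
      rw [Real.log_le_iff_le_exp hp0]; exact hp.2.2
    have hlp0 : 0 ≤ Real.log p := Real.log_natCast_nonneg p
    calc (Real.log p / Lt τ X) ^ 2 / p = Real.log p * (Real.log p / p) / Lt τ X ^ 2 := by ring
      _ ≤ (ρ * Lt τ X) * (Real.log p / p) / Lt τ X ^ 2 := by gcongr
      _ = (ρ / Lt τ X) * (Real.log p / p) := by field_simp
  refine h4.trans ?_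
  have h5 : |C1| ≤ ρ * Lt τ X := by
    rw [div_le_iff₀ hρ] at hLC
    linarith
  calc (ρ / Lt τ X) * ∑ p ∈ PR ρ τ D X, Real.log p / p ≤ (ρ / Lt τ X) * (ρ * Lt τ X + ρ * Lt τ X) := by
        apply mul_le_mul_of_nonneg_left _ (by positivity)
        linarith
    _ = 2 * ρ ^ 2 := by field_simp; ring

/-- `n + h j` has a prime factor in `(D, exp (ρ Lt)]` for some `j` -/
def Bad {K : ℕ} (ρ τ : ℝ) (D : ℕ) (X : ℝ) (h : Fin K → ℕ) (n : ℕ) : Prop :=
  ∃ j, ∃ p ∈ PR ρ τ D X, (p : ℤ) ∣ (n : ℤ) + h j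

open Classical in
/-- contribution of the `n` with a small prime factor -/
theorem nonroughW {K0 N1 M R : ℕ} {f : ℕ → ℝ → ℝ} {β : ℝ} (hN1 : 0 < N1) (hR : R < 2 * N1)
    (hf : Cells N1 M f β) (F : (Fin (K0 + 1) → ℕ) → ℝ) (hF : ∀ c, F c ≠ 0 → rad c ≤ R + 1)
    (τ : ℝ) (hτ : 0 < τ) (hτ' : τ < 1 / 8) :
    ∃ C : ℝ, 0 ≤ C ∧ ∀ D : ℕ, 32 * (K0 + 1) + 2 ≤ D → ∀ h : Fin (K0 + 1) → ℕ, Sep D h → ∀ a : ℕ,
      ∀ ρ : ℝ, 0 < ρ → ρ ≤ τ → ∀ᶠ X : ℝ in atTop,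
      ∑ n ∈ Icc 1 ⌊3 * X⌋₊, (if Bad ρ τ D X h n then nu X (WD D) a n * ww τ D X f M F h n ^ 2 else 0) ≤
        C * ρ ^ 2 * NN τ D X (K0 + 1) := by
  set Bx := (Box (K0 + 1) M).filter (fun c => F c ≠ 0) with hBx
  have hA' : ∀ (c : Fin (K0 + 1) → ℕ) (j0 : Fin (K0 + 1)), ∃ C : ℝ, 0 ≤ C ∧ (c ∈ Bx → ∀ D : ℕ, 32 * (K0 + 1) + 2 ≤ D →
      ∀ h : Fin (K0 + 1) → ℕ, Sep D h → ∀ a : ℕ, ∀ᶠ X : ℝ in atTop,
      ∀ p : ℕ, p.Prime → D < p → (p : ℝ) ≤ Real.exp (τ * Real.log X) →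
      ∑ n ∈ Icc 1 ⌊3 * X⌋₊, nu X (WD D) a n * (if (p : ℤ) ∣ (n : ℤ) + h j0 then
        ∏ j, (vv τ D X (f (c j)) ((n : ℤ) + h j) * vv τ D X (f (c j)) ((n : ℤ) + h j)) else 0) ≤
      NN τ D X (K0 + 1) * (2 ^ (K0 + 1) * C * ((Real.log p / Lt τ X) ^ 2 / p)) +
        5 * 2 ^ (2 * (K0 + 1)) * Real.exp (4 * Lt τ X)) := by
    intro c j0
    by_cases hc : c ∈ Bx
    · rw [hBx, mem_filter] at hc
      have hlen : ∑ j, (((c j : ℕ) : ℝ) + 1) / N1 ≤ 2 := by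
        rw [Lim.sum_len]
        exact Lim.le_two hN1 ((hF c hc.2).trans (by omega))
      obtain ⟨C, hC0, hC⟩ := stepB τ hτ hτ' (fun j => f (c j)) (fun j => (((c j : ℕ) : ℝ) + 1) / N1)
        (fun j => hf.good (c j) (Lim.mem_Box.1 hc.1 j)) hlen j0
      exact ⟨C, hC0, fun _ => hC⟩
    · exact ⟨0, le_rfl, fun h => absurd h hc⟩
  choose Ca hCa0 hCa using hA'
  set Csum : ℝ := ∑ j : Fin (K0 + 1), ∑ c ∈ Bx, (Bx.card : ℝ) * F c ^ 2 * (2 ^ (K0 + 1) * Ca c j) with hCsum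
  have hCsum0 : 0 ≤ Csum := sum_nonneg fun j _ => sum_nonneg fun a _ => by
    have := hCa0 a j; positivity
  set Cerr : ℝ := ∑ _j : Fin (K0 + 1), ∑ c ∈ Bx, (Bx.card : ℝ) * F c ^ 2 * (5 * 2 ^ (2 * (K0 + 1))) with hCerr
  have hCerr0 : 0 ≤ Cerr := sum_nonneg fun j _ => sum_nonneg fun a _ => by positivity
  refine ⟨2 * Csum + 1, by positivity, ?_⟩
  intro D hD h hsep a ρ hρ hρτ
  have hτ4 : τ < 1 / 4 := by linarith
  have ev : ∀ᶠ X : ℝ in atTop, ∀ c ∈ Bx, ∀ j0 : Fin (K0 + 1), ∀ p : ℕ, p.Prime → D < p →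
      (p : ℝ) ≤ Real.exp (τ * Real.log X) →
      ∑ n ∈ Icc 1 ⌊3 * X⌋₊, nu X (WD D) a n * (if (p : ℤ) ∣ (n : ℤ) + h j0 then
        ∏ j, (vv τ D X (f (c j)) ((n : ℤ) + h j) * vv τ D X (f (c j)) ((n : ℤ) + h j)) else 0) ≤
      NN τ D X (K0 + 1) * (2 ^ (K0 + 1) * Ca c j0 * ((Real.log p / Lt τ X) ^ 2 / p)) +
        5 * 2 ^ (2 * (K0 + 1)) * Real.exp (4 * Lt τ X) := by
    rw [Filter.eventually_all_finset]
    intro c hc
    rw [Filter.eventually_all]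
    intro j0
    exact hCa c j0 hc D hD h hsep a
  filter_upwards [ev, sum_u2 hρ hτ4 D, err_small2 hτ hτ' D (K0 + 1) Cerr (ρ ^ 2) (by positivity), NN_pos τ hτ4 D (K0 + 1),
    (Lt_tendsto hτ4).eventually_ge_atTop 2, eventually_ge_atTop 40] with X h1 h2 h3 hN hL hX
  have hL0 : 0 < Lt τ X := by linarith
  have hlog : 0 < Real.log X := Real.log_pos (by linarith)
  have hpexp : ∀ p ∈ PR ρ τ D X, (p : ℝ) ≤ Real.exp (τ * Real.log X) := by
    intro p hp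
    refine (mem_PR.1 hp).2.2.trans (Real.exp_le_exp.2 ?_)
    have e1 : Lt τ X ≤ Real.log X := by
      unfold Lt
      nlinarith
    calc ρ * Lt τ X ≤ τ * Lt τ X := mul_le_mul_of_nonneg_right hρτ hL0.le
      _ ≤ τ * Real.log X := mul_le_mul_of_nonneg_left e1 hτ.le
  have hww : ∀ n : ℕ, ww τ D X f M F h n = ∑ c ∈ Bx, F c * prodv τ D X f h c n := by
    intro n
    unfold ww
    rw [hBx, sum_filter]
    apply sum_congr rfl
    intro c _
    split_ifs with hc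
    · rfl
    · push Not at hc
      rw [hc, zero_mul]
  have hsq : ∀ n : ℕ, ww τ D X f M F h n ^ 2 ≤ ∑ c ∈ Bx, (Bx.card : ℝ) * F c ^ 2 *
      ∏ j, (vv τ D X (f (c j)) ((n : ℤ) + h j) * vv τ D X (f (c j)) ((n : ℤ) + h j)) := by
    intro n
    rw [hww n]
    refine (sq_sum_le_card_mul_sum_sq).trans (le_of_eq ?_)
    rw [mul_sum]
    apply sum_congr rfl
    intro c _
    unfold prodv
    rw [mul_pow, ← prod_pow]
    rw [mul_assoc]
    congr 2
    apply prod_congr rfl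
    intro j _
    ring
  have hprod0 : ∀ (c : Fin (K0 + 1) → ℕ) (n : ℕ),
      0 ≤ ∏ j, (vv τ D X (f (c j)) ((n : ℤ) + h j) * vv τ D X (f (c j)) ((n : ℤ) + h j)) :=
    fun c n => prod_nonneg fun j _ => mul_self_nonneg _
  -- pointwise
  have hpt : ∀ n ∈ Icc 1 ⌊3 * X⌋₊, (if Bad ρ τ D X h n then nu X (WD D) a n * ww τ D X f M F h n ^ 2 else 0) ≤
      ∑ j0 : Fin (K0 + 1), ∑ p ∈ PR ρ τ D X, ∑ c ∈ Bx, (Bx.card : ℝ) * F c ^ 2 *
        (nu X (WD D) a n * (if (p : ℤ) ∣ (n : ℤ) + h j0 then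
        ∏ j, (vv τ D X (f (c j)) ((n : ℤ) + h j) * vv τ D X (f (c j)) ((n : ℤ) + h j)) else 0)) := by
    intro n _
    have hnu := nu_nonneg X (WD D) a n
    have hterm : ∀ (j0 : Fin (K0 + 1)) (p : ℕ), 0 ≤ ∑ c ∈ Bx, (Bx.card : ℝ) * F c ^ 2 *
        (nu X (WD D) a n * (if (p : ℤ) ∣ (n : ℤ) + h j0 then
        ∏ j, (vv τ D X (f (c j)) ((n : ℤ) + h j) * vv τ D X (f (c j)) ((n : ℤ) + h j)) else 0)) := by
      intro j0 p
      apply sum_nonneg
      intro c _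
      apply mul_nonneg (by positivity)
      apply mul_nonneg hnu
      split_ifs
      · exact hprod0 c n
      · exact le_rfl
    split_ifs with hb
    · obtain ⟨j0, p, hp, hpd⟩ := hb
      have e1 : nu X (WD D) a n * ww τ D X f M F h n ^ 2 ≤ ∑ c ∈ Bx, (Bx.card : ℝ) * F c ^ 2 *
        (nu X (WD D) a n * (if (p : ℤ) ∣ (n : ℤ) + h j0 then
        ∏ j, (vv τ D X (f (c j)) ((n : ℤ) + h j) * vv τ D X (f (c j)) ((n : ℤ) + h j)) else 0)) := by
        refine (mul_le_mul_of_nonneg_left (hsq n) hnu).trans (le_of_eq ?_)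
        rw [mul_sum]
        apply sum_congr rfl
        intro c _
        rw [if_pos hpd]
        ring
      refine e1.trans ?_
      refine le_trans (single_le_sum (f := fun p : ℕ => ∑ c ∈ Bx, (Bx.card : ℝ) * F c ^ 2 *
        (nu X (WD D) a n * (if (p : ℤ) ∣ (n : ℤ) + h j0 then
        ∏ j, (vv τ D X (f (c j)) ((n : ℤ) + h j) * vv τ D X (f (c j)) ((n : ℤ) + h j)) else 0)))
        (fun p _ => hterm j0 p) hp) ?_
      exact single_le_sum (f := fun j0 => ∑ p ∈ PR ρ τ D X, ∑ c ∈ Bx, (Bx.card : ℝ) * F c ^ 2 *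
        (nu X (WD D) a n * (if (p : ℤ) ∣ (n : ℤ) + h j0 then
        ∏ j, (vv τ D X (f (c j)) ((n : ℤ) + h j) * vv τ D X (f (c j)) ((n : ℤ) + h j)) else 0)))
        (fun j0 _ => sum_nonneg fun p _ => hterm j0 p) (mem_univ j0)
    · exact sum_nonneg fun j0 _ => sum_nonneg fun p _ => hterm j0 p
  refine (sum_le_sum hpt).trans ?_
  -- exchange
  have hex : ∑ n ∈ Icc 1 ⌊3 * X⌋₊, ∑ j0 : Fin (K0 + 1), ∑ p ∈ PR ρ τ D X, ∑ c ∈ Bx, (Bx.card : ℝ) * F c ^ 2 *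
        (nu X (WD D) a n * (if (p : ℤ) ∣ (n : ℤ) + h j0 then
        ∏ j, (vv τ D X (f (c j)) ((n : ℤ) + h j) * vv τ D X (f (c j)) ((n : ℤ) + h j)) else 0)) =
      ∑ j0 : Fin (K0 + 1), ∑ p ∈ PR ρ τ D X, ∑ c ∈ Bx, (Bx.card : ℝ) * F c ^ 2 *
        ∑ n ∈ Icc 1 ⌊3 * X⌋₊, nu X (WD D) a n * (if (p : ℤ) ∣ (n : ℤ) + h j0 then
        ∏ j, (vv τ D X (f (c j)) ((n : ℤ) + h j) * vv τ D X (f (c j)) ((n : ℤ) + h j)) else 0) := by
    rw [sum_comm]
    apply sum_congr rfl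
    intro j0 _
    rw [sum_comm]
    apply sum_congr rfl
    intro p _
    rw [sum_comm]
    apply sum_congr rfl
    intro c _
    rw [mul_sum]
  rw [hex]
  have hone : ∀ j0 : Fin (K0 + 1), ∀ p ∈ PR ρ τ D X, ∑ c ∈ Bx, (Bx.card : ℝ) * F c ^ 2 *
        ∑ n ∈ Icc 1 ⌊3 * X⌋₊, nu X (WD D) a n * (if (p : ℤ) ∣ (n : ℤ) + h j0 then
        ∏ j, (vv τ D X (f (c j)) ((n : ℤ) + h j) * vv τ D X (f (c j)) ((n : ℤ) + h j)) else 0) ≤
      NN τ D X (K0 + 1) * (∑ c ∈ Bx, (Bx.card : ℝ) * F c ^ 2 * (2 ^ (K0 + 1) * Ca c j0)) * ((Real.log p / Lt τ X) ^ 2 / p) +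
        (∑ c ∈ Bx, (Bx.card : ℝ) * F c ^ 2 * (5 * 2 ^ (2 * (K0 + 1)))) * Real.exp (4 * Lt τ X) := by
    intro j0 p hp
    have hp' := mem_PR.1 hp
    calc _ ≤ ∑ c ∈ Bx, (Bx.card : ℝ) * F c ^ 2 * (NN τ D X (K0 + 1) * (2 ^ (K0 + 1) * Ca c j0 * ((Real.log p / Lt τ X) ^ 2 / p)) +
        5 * 2 ^ (2 * (K0 + 1)) * Real.exp (4 * Lt τ X)) := by
          apply sum_le_sum
          intro c hc
          exact mul_le_mul_of_nonneg_left (h1 c hc j0 p hp'.1 hp'.2.1 (hpexp p hp)) (by positivity)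
      _ = _ := by
          rw [mul_sum, sum_mul, sum_mul, ← sum_add_distrib]
          apply sum_congr rfl
          intro c _
          ring
  refine (sum_le_sum fun j _ => sum_le_sum fun p hp => hone j p hp).trans ?_
  have hsplit : ∀ j0 : Fin (K0 + 1), ∑ p ∈ PR ρ τ D X,
      (NN τ D X (K0 + 1) * (∑ c ∈ Bx, (Bx.card : ℝ) * F c ^ 2 * (2 ^ (K0 + 1) * Ca c j0)) * ((Real.log p / Lt τ X) ^ 2 / p) +
        (∑ c ∈ Bx, (Bx.card : ℝ) * F c ^ 2 * (5 * 2 ^ (2 * (K0 + 1)))) * Real.exp (4 * Lt τ X)) =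
      NN τ D X (K0 + 1) * (∑ c ∈ Bx, (Bx.card : ℝ) * F c ^ 2 * (2 ^ (K0 + 1) * Ca c j0)) *
        ∑ p ∈ PR ρ τ D X, ((Real.log p / Lt τ X) ^ 2 / p) +
      ((PR ρ τ D X).card : ℝ) * ((∑ c ∈ Bx, (Bx.card : ℝ) * F c ^ 2 * (5 * 2 ^ (2 * (K0 + 1)))) * Real.exp (4 * Lt τ X)) := by
    intro j0
    rw [sum_add_distrib, ← mul_sum, sum_const, nsmul_eq_mul]
  rw [sum_congr rfl (fun j _ => hsplit j), sum_add_distrib]
  have hcard := card_PR ρ τ D X
  have d2 : ∑ j0 : Fin (K0 + 1), NN τ D X (K0 + 1) * (∑ c ∈ Bx, (Bx.card : ℝ) * F c ^ 2 * (2 ^ (K0 + 1) * Ca c j0)) *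
        ∑ p ∈ PR ρ τ D X, ((Real.log p / Lt τ X) ^ 2 / p) ≤ 2 * Csum * ρ ^ 2 * NN τ D X (K0 + 1) := by
    have e1 : ∀ j0 : Fin (K0 + 1), NN τ D X (K0 + 1) * (∑ c ∈ Bx, (Bx.card : ℝ) * F c ^ 2 * (2 ^ (K0 + 1) * Ca c j0)) *
        ∑ p ∈ PR ρ τ D X, ((Real.log p / Lt τ X) ^ 2 / p) ≤
        NN τ D X (K0 + 1) * (2 * ρ ^ 2) * (∑ c ∈ Bx, (Bx.card : ℝ) * F c ^ 2 * (2 ^ (K0 + 1) * Ca c j0)) := by
      intro j0
      have h0 : 0 ≤ ∑ c ∈ Bx, (Bx.card : ℝ) * F c ^ 2 * (2 ^ (K0 + 1) * Ca c j0) := sum_nonneg fun a _ => by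
        have := hCa0 a j0; positivity
      calc _ ≤ NN τ D X (K0 + 1) * (∑ c ∈ Bx, (Bx.card : ℝ) * F c ^ 2 * (2 ^ (K0 + 1) * Ca c j0)) * (2 * ρ ^ 2) :=
            mul_le_mul_of_nonneg_left h2 (by positivity)
        _ = _ := by ring
    refine (sum_le_sum fun j _ => e1 j).trans (le_of_eq ?_)
    rw [← mul_sum, hCsum]
    ring
  have d3 : ∑ _j : Fin (K0 + 1), ((PR ρ τ D X).card : ℝ) *
      ((∑ c ∈ Bx, (Bx.card : ℝ) * F c ^ 2 * (5 * 2 ^ (2 * (K0 + 1)))) * Real.exp (4 * Lt τ X)) ≤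
      ρ ^ 2 * NN τ D X (K0 + 1) := by
    refine le_trans ?_ h3
    have e5 : Real.exp (ρ * Lt τ X) * Real.exp (4 * Lt τ X) ≤ Real.exp ((4 + τ) * Lt τ X) := by
      rw [← Real.exp_add]
      apply Real.exp_le_exp.2
      nlinarith
    have e6 : ∑ _j : Fin (K0 + 1), ((PR ρ τ D X).card : ℝ) *
      ((∑ c ∈ Bx, (Bx.card : ℝ) * F c ^ 2 * (5 * 2 ^ (2 * (K0 + 1)))) * Real.exp (4 * Lt τ X)) =
      Cerr * (((PR ρ τ D X).card : ℝ) * Real.exp (4 * Lt τ X)) := by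
      rw [hCerr, sum_const, sum_const, nsmul_eq_mul, nsmul_eq_mul]
      ring
    rw [e6]
    apply mul_le_mul_of_nonneg_left _ hCerr0
    refine le_trans ?_ e5
    exact mul_le_mul_of_nonneg_right hcard (Real.exp_pos _).le
  calc _ ≤ 2 * Csum * ρ ^ 2 * NN τ D X (K0 + 1) + ρ ^ 2 * NN τ D X (K0 + 1) := add_le_add d2 d3
    _ = _ := by ring

end Pool.Agent.Helper2.NR
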